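import Mathlib

set_option autoImplicit false

namespace Pool.Agent.MP_9b0ed7_co.H41

/-- An edge-ordered graph is a simple graph `H` with a real labelling that is injective on the
edges. -/
def EdgeOrdered {V : Type} (H : SimpleGraph V) (l : Sym2 V → ℝ) : Prop :=
  Set.InjOn l H.edgeSet

/-- `(H, lH)` contains `(G, lG)`: an injective vertex map sends edges to edges and preserves the
order of the edges. -/
def Contains {V W : Type} (H : SimpleGraph V) (lH : Sym2 V → ℝ)
    (G : SimpleGraph W) (lG : Sym2 W → ℝ) : Prop :=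
  ∃ f : W → V, Function.Injective f ∧ (∀ a b, G.Adj a b → H.Adj (f a) (f b)) ∧
    ∀ a b c d, G.Adj a b → G.Adj c d → lG s(a, b) < lG s(c, d) →
      lH s(f a, f b) < lH s(f c, f d)

open Classical in
/-- `(H, lH)` is `(G, lG)`-saturated: it avoids `G`, and adding any missing edge with any new
label (that is, in any position of the edge order) gives a graph containing `G`. -/
def Saturated {V W : Type} (H : SimpleGraph V) (lH : Sym2 V → ℝ)
    (G : SimpleGraph W) (lG : Sym2 W → ℝ) : Prop :=
  ¬ Contains H lH G lG ∧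
    ∀ u v : V, u ≠ v → ¬ H.Adj u v → ∀ x : ℝ, (∀ e ∈ H.edgeSet, lH e ≠ x) →
      Contains (H ⊔ SimpleGraph.edge u v) (Function.update lH s(u, v) x) G lG

/-- The vertex `a` meets an edge with label at most `t` and an edge with label above `t`. -/
def Straddles {W : Type} (G : SimpleGraph W) (lG : Sym2 W → ℝ) (t : ℝ) (a : W) : Prop :=
  (∃ b, G.Adj a b ∧ lG s(a, b) ≤ t) ∧ ∃ b, G.Adj a b ∧ t < lG s(a, b)

end Pool.Agent.MP_9b0ed7_co.H41
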