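import Mathlib
import Pool.Agent.MP_9b0ed7_co.H41.Defs

set_option autoImplicit false

namespace Pool.Agent.MP_9b0ed7_co.H41

open SimpleGraph

variable {V V' V'' W : Type}

/-- `f` is a copy of `G` in `H` (isolated vertices of `G` are ignored). -/
structure IsCopy (f : W → V) (G : SimpleGraph W) (lG : Sym2 W → ℝ)
    (H : SimpleGraph V) (l : Sym2 V → ℝ) : Prop where
  inj : Set.InjOn f G.support
  adj : ∀ a b, G.Adj a b → H.Adj (f a) (f b)
  ord : ∀ a b c d, G.Adj a b → G.Adj c d → lG s(a, b) < lG s(c, d) →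
    l s(f a, f b) < l s(f c, f d)

def WC (H : SimpleGraph V) (l : Sym2 V → ℝ) (G : SimpleGraph W) (lG : Sym2 W → ℝ) : Prop :=
  ∃ f : W → V, IsCopy f G lG H l

/-- An order preserving embedding. -/
structure Emb (φ : V → V') (H : SimpleGraph V) (l : Sym2 V → ℝ)
    (H' : SimpleGraph V') (l' : Sym2 V' → ℝ) : Prop where
  inj : Function.Injective φ
  adj : ∀ a b, H.Adj a b → H'.Adj (φ a) (φ b)
  ord : ∀ a b c d, H.Adj a b → H.Adj c d → l s(a, b) < l s(c, d) →
    l' s(φ a, φ b) < l' s(φ c, φ d)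

theorem Emb.comp {φ : V → V'} {ψ : V' → V''} {H : SimpleGraph V} {l : Sym2 V → ℝ}
    {H' : SimpleGraph V'} {l' : Sym2 V' → ℝ} {H'' : SimpleGraph V''} {l'' : Sym2 V'' → ℝ}
    (h1 : Emb φ H l H' l') (h2 : Emb ψ H' l' H'' l'') : Emb (ψ ∘ φ) H l H'' l'' :=
  ⟨h2.inj.comp h1.inj, fun a b h => h2.adj _ _ (h1.adj a b h),
    fun a b c d hab hcd h => h2.ord _ _ _ _ (h1.adj _ _ hab) (h1.adj _ _ hcd)
      (h1.ord a b c d hab hcd h)⟩

theorem IsCopy.emb {f : W → V} {G : SimpleGraph W} {lG : Sym2 W → ℝ}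
    {H : SimpleGraph V} {l : Sym2 V → ℝ} {φ : V → V'} {H' : SimpleGraph V'} {l' : Sym2 V' → ℝ}
    (hf : IsCopy f G lG H l) (h : Emb φ H l H' l') : IsCopy (φ ∘ f) G lG H' l' :=
  ⟨fun _ ha _ hb hab => hf.inj ha hb (h.inj hab), fun a b hab => h.adj _ _ (hf.adj a b hab),
    fun a b c d hab hcd hl => h.ord _ _ _ _ (hf.adj _ _ hab) (hf.adj _ _ hcd)
      (hf.ord a b c d hab hcd hl)⟩

theorem WC.emb {G : SimpleGraph W} {lG : Sym2 W → ℝ}
    {H : SimpleGraph V} {l : Sym2 V → ℝ} {φ : V → V'} {H' : SimpleGraph V'} {l' : Sym2 V' → ℝ}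
    (hf : WC H l G lG) (h : Emb φ H l H' l') : WC H' l' G lG :=
  let ⟨_, hf⟩ := hf; ⟨_, hf.emb h⟩

theorem IsCopy.mono {f : W → V} {G G' : SimpleGraph W} {lG : Sym2 W → ℝ}
    {H : SimpleGraph V} {l : Sym2 V → ℝ} (hf : IsCopy f G lG H l) (hle : G' ≤ G) :
    IsCopy f G' lG H l :=
  ⟨hf.inj.mono (support_mono hle), fun a b hab => hf.adj a b (hle hab),
    fun a b c d hab hcd h => hf.ord a b c d (hle hab) (hle hcd) h⟩

theorem EdgeOrdered.eq_of {H : SimpleGraph V} {l : Sym2 V → ℝ} (h : EdgeOrdered H l)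
    {a b c d : V} (hab : H.Adj a b) (hcd : H.Adj c d) (hl : l s(a, b) = l s(c, d)) :
    s(a, b) = s(c, d) := h hab hcd hl

theorem edgeOrdered_of {H : SimpleGraph V} {l : Sym2 V → ℝ}
    (h : ∀ a b c d, H.Adj a b → H.Adj c d → l s(a, b) = l s(c, d) → s(a, b) = s(c, d)) :
    EdgeOrdered H l := by
  intro e he e' he' hl
  induction e using Sym2.ind with
  | _ a b =>
  induction e' using Sym2.ind with
  | _ c d => exact h a b c d he he' hl

theorem EdgeOrdered.mono {H H' : SimpleGraph V} {l : Sym2 V → ℝ} (h : EdgeOrdered H l)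
    (hle : H' ≤ H) : EdgeOrdered H' l := Set.InjOn.mono (edgeSet_mono hle) h

/-- Order is reflected by an embedding of an edge-ordered graph. -/
theorem Emb.refl_ord {φ : V → V'} {H : SimpleGraph V} {l : Sym2 V → ℝ}
    {H' : SimpleGraph V'} {l' : Sym2 V' → ℝ} (h : Emb φ H l H' l') (hv : EdgeOrdered H l)
    {a b c d : V} (hab : H.Adj a b) (hcd : H.Adj c d)
    (hl : l' s(φ a, φ b) < l' s(φ c, φ d)) : l s(a, b) < l s(c, d) := by
  rcases lt_trichotomy (l s(a, b)) (l s(c, d)) with h1 | h1 | h1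
  · exact h1
  · have := hv.eq_of hab hcd h1
    have h2 : s(φ a, φ b) = s(φ c, φ d) := by
      have := congrArg (Sym2.map φ) this
      simpa using this
    rw [h2] at hl; exact absurd hl (lt_irrefl _)
  · exact absurd (h.ord _ _ _ _ hcd hab h1) (not_lt.2 hl.le)

/-- Pulling a copy back along an embedding whose image contains all used edges. -/
theorem IsCopy.pull {f : W → V'} {G : SimpleGraph W} {lG : Sym2 W → ℝ}
    {H : SimpleGraph V} {l : Sym2 V → ℝ} {φ : V → V'} {H' : SimpleGraph V'} {l' : Sym2 V' → ℝ}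
    [Nonempty V] (hf : IsCopy f G lG H' l') (h : Emb φ H l H' l') (hv : EdgeOrdered H l)
    (him : ∀ a b, G.Adj a b → ∃ α β, H.Adj α β ∧ φ α = f a ∧ φ β = f b) :
    IsCopy (Function.invFun φ ∘ f) G lG H l := by
  have key : ∀ a b, G.Adj a b → H.Adj (Function.invFun φ (f a)) (Function.invFun φ (f b)) ∧
      φ (Function.invFun φ (f a)) = f a ∧ φ (Function.invFun φ (f b)) = f b := by
    intro a b hab
    obtain ⟨α, β, h1, h2, h3⟩ := him a b hab
    rw [← h2, ← h3, Function.leftInverse_invFun h.inj α, Function.leftInverse_invFun h.inj β]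
    exact ⟨h1, rfl, rfl⟩
  refine ⟨?_, fun a b hab => (key a b hab).1, ?_⟩
  · rintro a ⟨a', ha⟩ b ⟨b', hb⟩ hab
    apply hf.inj ⟨a', ha⟩ ⟨b', hb⟩
    rw [← (key a a' ha).2.1, ← (key b b' hb).2.1]
    exact congrArg φ hab
  · intro a b c d hab hcd hl
    apply h.refl_ord hv (key a b hab).1 (key c d hcd).1
    rw [(key a b hab).2.1, (key a b hab).2.2, (key c d hcd).2.1, (key c d hcd).2.2]
    exact hf.ord a b c d hab hcd hl

theorem WC.pull {G : SimpleGraph W} {lG : Sym2 W → ℝ}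
    {H : SimpleGraph V} {l : Sym2 V → ℝ} {φ : V → V'} {H' : SimpleGraph V'} {l' : Sym2 V' → ℝ}
    {f : W → V'} (hf : IsCopy f G lG H' l') (h : Emb φ H l H' l') (hv : EdgeOrdered H l)
    (hne : ∃ a b, G.Adj a b)
    (him : ∀ a b, G.Adj a b → ∃ α β, H.Adj α β ∧ φ α = f a ∧ φ β = f b) : WC H l G lG := by
  obtain ⟨a, b, hab⟩ := hne
  obtain ⟨α, -⟩ := him a b hab
  have : Nonempty V := ⟨α⟩
  exact ⟨_, hf.pull h hv him⟩

/-- Pulling a labelling back along an injective graph homomorphism. -/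
theorem emb_pullback {φ : V → V'} {H : SimpleGraph V} {H' : SimpleGraph V'} (l' : Sym2 V' → ℝ)
    (hφ : Function.Injective φ) (hadj : ∀ a b, H.Adj a b → H'.Adj (φ a) (φ b)) :
    Emb φ H (l' ∘ Sym2.map φ) H' l' :=
  ⟨hφ, hadj, fun a b c d _ _ h => by simpa using h⟩

theorem edgeOrdered_pullback {φ : V → V'} {H : SimpleGraph V} {H' : SimpleGraph V'}
    {l' : Sym2 V' → ℝ} (hv : EdgeOrdered H' l')
    (hφ : Function.Injective φ) (hadj : ∀ a b, H.Adj a b → H'.Adj (φ a) (φ b)) :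
    EdgeOrdered H (l' ∘ Sym2.map φ) := by
  apply edgeOrdered_of
  intro a b c d hab hcd hl
  have := hv.eq_of (hadj a b hab) (hadj c d hcd) (by simpa using hl)
  apply Sym2.map.injective hφ
  simpa using this

/-- Pushing a labelling forward along an injection. -/
noncomputable def pushL (φ : V → V') (l : Sym2 V → ℝ) : Sym2 V' → ℝ :=
  Function.extend (Sym2.map φ) l 0

theorem pushL_apply {φ : V → V'} (hφ : Function.Injective φ) (l : Sym2 V → ℝ) (a b : V) :
    pushL φ l s(φ a, φ b) = l s(a, b) := by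
  have := (Sym2.map.injective hφ).extend_apply l 0 s(a, b)
  simpa [pushL] using this

/-- The image graph. -/
def pushG (φ : V → V') (H : SimpleGraph V) : SimpleGraph V' where
  Adj u v := u ≠ v ∧ ∃ a b, H.Adj a b ∧ φ a = u ∧ φ b = v
  symm := ⟨fun _ _ ⟨h, a, b, hab, h1, h2⟩ => ⟨h.symm, b, a, hab.symm, h2, h1⟩⟩
  loopless := ⟨fun _ h => h.1 rfl⟩

theorem pushG_adj {φ : V → V'} (hφ : Function.Injective φ) {H : SimpleGraph V} {a b : V}
    (h : H.Adj a b) : (pushG φ H).Adj (φ a) (φ b) :=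
  ⟨fun h' => h.ne (hφ h'), a, b, h, rfl, rfl⟩

theorem emb_push {φ : V → V'} (hφ : Function.Injective φ) (H : SimpleGraph V)
    (l : Sym2 V → ℝ) : Emb φ H l (pushG φ H) (pushL φ l) :=
  ⟨hφ, fun _ _ h => pushG_adj hφ h, fun a b c d _ _ h => by
    rwa [pushL_apply hφ, pushL_apply hφ]⟩

theorem edgeOrdered_push {φ : V → V'} (hφ : Function.Injective φ) {H : SimpleGraph V}
    {l : Sym2 V → ℝ} (hv : EdgeOrdered H l) : EdgeOrdered (pushG φ H) (pushL φ l) := by
  apply edgeOrdered_of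
  rintro _ _ _ _ ⟨-, a, b, hab, rfl, rfl⟩ ⟨-, c, d, hcd, rfl, rfl⟩ hl
  rw [pushL_apply hφ, pushL_apply hφ] at hl
  have := congrArg (Sym2.map φ) (hv.eq_of hab hcd hl)
  simpa using this

theorem wc_push {φ : V → V'} (hφ : Function.Injective φ) {H : SimpleGraph V}
    {l : Sym2 V → ℝ} (hv : EdgeOrdered H l) {G : SimpleGraph W} {lG : Sym2 W → ℝ}
    (hne : ∃ a b, G.Adj a b) (h : WC (pushG φ H) (pushL φ l) G lG) : WC H l G lG := by
  obtain ⟨f, hf⟩ := h
  exact WC.pull hf (emb_push hφ H l) hv hne fun a b hab => (hf.adj a b hab).2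

theorem Contains.wc {H : SimpleGraph V} {l : Sym2 V → ℝ} {G : SimpleGraph W} {lG : Sym2 W → ℝ}
    (h : Contains H l G lG) : WC H l G lG :=
  let ⟨f, h1, h2, h3⟩ := h; ⟨f, h1.injOn, h2, h3⟩

theorem WC.contains [Fintype V] [Fintype W] {H : SimpleGraph V} {l : Sym2 V → ℝ}
    {G : SimpleGraph W} {lG : Sym2 W → ℝ} (hc : Fintype.card W ≤ Fintype.card V)
    (h : WC H l G lG) : Contains H l G lG := by
  classical
  obtain ⟨f, hf⟩ := h
  obtain ⟨j⟩ := Function.Embedding.nonempty_of_card_le hc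
  obtain ⟨σ, hσ⟩ := Equiv.Perm.exists_extending_pair (α := G.support)
    (f := fun a => j a.1) (g := fun a => f a.1)
    (fun a b h => Subtype.ext (j.injective h))
    (fun a b h => Subtype.ext (hf.inj a.2 b.2 h))
  have e1 : ∀ a b, G.Adj a b → σ (j a) = f a := fun a b h => hσ ⟨a, b, h⟩
  refine ⟨fun a => σ (j a), σ.injective.comp j.injective, ?_, ?_⟩
  · intro a b hab
    simp only [e1 a b hab, e1 b a hab.symm]
    exact hf.adj a b hab
  · intro a b c d hab hcd hl
    simp only [e1 a b hab, e1 b a hab.symm, e1 c d hcd, e1 d c hcd.symm]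
    exact hf.ord a b c d hab hcd hl

open Classical in
/-- Every avoiding edge-ordered graph extends to a saturated one on the same vertices. -/
theorem exists_saturated [Fintype V] [Fintype W] {G : SimpleGraph W} {lG : Sym2 W → ℝ}
    (hc : Fintype.card W ≤ Fintype.card V) {H0 : SimpleGraph V} {l0 : Sym2 V → ℝ}
    (hv : EdgeOrdered H0 l0) (hf : ¬ WC H0 l0 G lG) :
    ∃ (H : SimpleGraph V) (l : Sym2 V → ℝ), EdgeOrdered H l ∧ Saturated H l G lG ∧
      ¬ WC H l G lG ∧ Emb id H0 l0 H l := by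
  let S : Set (SimpleGraph V) :=
    {H | ∃ l : Sym2 V → ℝ, EdgeOrdered H l ∧ ¬ WC H l G lG ∧ Emb id H0 l0 H l}
  have hS : S.Nonempty := ⟨H0, l0, hv, hf, Function.injective_id, fun _ _ h => h,
    fun _ _ _ _ _ _ h => h⟩
  obtain ⟨H, ⟨l, h1, h2, h3⟩, hmax⟩ := (wellFounded_gt (α := SimpleGraph V)).has_min S hS
  refine ⟨H, l, h1, ⟨fun h => h2 h.wc, ?_⟩, h2, h3⟩
  intro u v huv hadj x hx
  apply WC.contains hc
  by_contra hcon
  have hne : ∀ a b, H.Adj a b → s(a, b) ≠ s(u, v) := by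
    intro a b hab h
    apply hadj
    have : s(u, v) ∈ H.edgeSet := h ▸ hab
    exact this
  have hup : ∀ a b, H.Adj a b → Function.update l s(u, v) x s(a, b) = l s(a, b) :=
    fun a b hab => Function.update_of_ne (hne a b hab) _ _
  have hcases : ∀ a b, (H ⊔ edge u v).Adj a b → H.Adj a b ∨ s(a, b) = s(u, v) := by
    intro a b hab
    rcases hab with h | h
    · exact Or.inl h
    · right
      rw [edge_adj] at h
      rcases h.1 with ⟨rfl, rfl⟩ | ⟨rfl, rfl⟩
      · rfl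
      · exact Sym2.eq_swap
  apply hmax (H ⊔ edge u v) ⟨Function.update l s(u, v) x, ?_, hcon, ?_⟩
  · refine lt_of_le_of_ne le_sup_left ?_
    intro h
    apply hadj
    rw [h]
    right
    rw [edge_adj]
    exact ⟨Or.inl ⟨rfl, rfl⟩, huv⟩
  · apply edgeOrdered_of
    intro a b c d hab hcd hl
    rcases hcases a b hab with h | h <;> rcases hcases c d hcd with h' | h'
    · rw [hup a b h, hup c d h'] at hl
      exact h1.eq_of h h' hl
    · rw [hup a b h, h', Function.update_self] at hl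
      exact absurd hl (hx _ h)
    · rw [hup c d h', h, Function.update_self] at hl
      exact absurd hl.symm (hx _ h')
    · rw [h, h']
  · refine ⟨Function.injective_id, fun a b h => Or.inl (h3.adj a b h), ?_⟩
    intro a b c d hab hcd hl
    have := h3.ord a b c d hab hcd hl
    simp only [id] at this ⊢
    rwa [hup a b (h3.adj a b hab), hup c d (h3.adj c d hcd)]

end Pool.Agent.MP_9b0ed7_co.H41
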