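import Mathlib
import Pool.Agent.MP_9b0ed7_co.H41.Basic

set_option autoImplicit false

namespace Pool.Agent.MP_9b0ed7_co.H41

open SimpleGraph

variable {V W : Type}

/-- Hubs `C` together with an independent set `L`. -/
structure Str (L : Type) where
  C : Type
  fin : Finite C
  H : SimpleGraph (C ⊕ L)
  l : Sym2 (C ⊕ L) → ℝ
  valid : EdgeOrdered H l
  indep : ∀ u v, ¬ H.Adj (.inr u) (.inr v)

attribute [instance] Str.fin

/-- Adjacent pairs of `L` whose edge lies below all edges of `A`. -/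
def LowSet {L : Type} (A : Str L) (H : SimpleGraph V) (lH : Sym2 V → ℝ) (φ : A.C ⊕ L → V) :
    Set (L × L) :=
  {p | H.Adj (φ (.inr p.1)) (φ (.inr p.2)) ∧
    ∀ α β, A.H.Adj α β → lH s(φ (.inr p.1), φ (.inr p.2)) < lH s(φ α, φ β)}

/-- Adjacent pairs of `L` whose edge lies above all edges of `A`. -/
def HighSet {L : Type} (A : Str L) (H : SimpleGraph V) (lH : Sym2 V → ℝ) (φ : A.C ⊕ L → V) :
    Set (L × L) :=
  {p | H.Adj (φ (.inr p.1)) (φ (.inr p.2)) ∧
    ∀ α β, A.H.Adj α β → lH s(φ α, φ β) < lH s(φ (.inr p.1), φ (.inr p.2))}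

theorem ncard_le_of_fibers {α β : Type} [Finite α] [Finite β] (s : Set (α × β)) (D : ℕ)
    (h : ∀ a, {b | (a, b) ∈ s}.ncard ≤ D) : s.ncard ≤ D * Nat.card α := by
  classical
  have := Fintype.ofFinite α
  have := Fintype.ofFinite β
  rw [Set.ncard_eq_toFinset_card' s, Nat.card_eq_fintype_card]
  have h1 := Finset.card_le_mul_card_image (f := Prod.fst) s.toFinset D (by
    intro a _
    refine le_trans ?_ (h a)
    rw [Set.ncard_eq_toFinset_card']
    apply Finset.card_le_card_of_injOn Prod.snd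
    · intro p hp
      simp only [Finset.coe_filter, Set.mem_toFinset, Set.mem_ofPred_eq] at hp
      simp only [Set.coe_toFinset, Set.mem_ofPred_eq]
      rw [← hp.2]; exact hp.1
    · intro p hp q hq hpq
      simp only [Finset.coe_filter, Set.mem_toFinset, Set.mem_ofPred_eq] at hp hq
      exact Prod.ext (hp.2.trans hq.2.symm) hpq)
  exact h1.trans (Nat.mul_le_mul_left _ (Finset.card_le_univ _))

theorem exists_inj_of_le_ncard {α : Type} (s : Set α) (hs : s.Finite) (n : ℕ)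
    (h : n ≤ s.ncard) : ∃ g : Fin n → α, Function.Injective g ∧ ∀ i, g i ∈ s := by
  classical
  have h' : Fintype.card (Fin n) ≤ hs.toFinset.card := by
    rwa [Fintype.card_fin, ← Set.ncard_eq_toFinset_card s hs]
  obtain ⟨g, hg⟩ := Function.Embedding.exists_of_card_le_finset h'
  exact ⟨g, g.injective, fun i => by simpa using hg ⟨i, rfl⟩⟩

/-- The labelling respects the order of the classes given by the group map `γ`. -/
def Resp (lG : Sym2 W → ℝ) (γ : V → W) (H : SimpleGraph V) (l : Sym2 V → ℝ) : Prop :=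
  ∀ a b c d, H.Adj a b → H.Adj c d → lG s(γ a, γ b) < lG s(γ c, γ d) → l s(a, b) < l s(c, d)

/-- Every class-respecting order of the `t`-fold blow-up of `S` contains `G`. -/
def Rt (G : SimpleGraph W) (lG : Sym2 W → ℝ) (S : SimpleGraph W) (t : ℕ) : Prop :=
  ∀ l : Sym2 (W × Fin t) → ℝ, EdgeOrdered (S.comap Prod.fst) l →
    Resp lG Prod.fst (S.comap Prod.fst) l → WC (S.comap Prod.fst) l G lG

theorem rt_self (G : SimpleGraph W) (lG : Sym2 W → ℝ) : Rt G lG G 1 := by
  intro l _ hr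
  refine ⟨fun a => (a, 0), fun a _ b _ h => congrArg Prod.fst h, fun a b h => h, ?_⟩
  intro a b c d hab hcd h
  exact hr _ _ _ _ hab hcd h

theorem exists_min_template [Finite W] (G : SimpleGraph W) (lG : Sym2 W → ℝ)
    (hne : ∃ a b, G.Adj a b) :
    ∃ (S : SimpleGraph W) (t : ℕ), S ≤ G ∧ Rt G lG S t ∧ (∃ a b, S.Adj a b) ∧
      ∀ S' < S, ∀ t', ¬ Rt G lG S' t' := by
  classical
  have := Fintype.ofFinite W
  obtain ⟨S, ⟨h1, t, h2⟩, hmin⟩ := (wellFounded_lt (α := SimpleGraph W)).has_min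
    {S | S ≤ G ∧ ∃ t, Rt G lG S t} ⟨G, le_rfl, 1, rt_self G lG⟩
  refine ⟨S, t, h1, h2, ?_, fun S' hS' t' h => hmin S' ⟨hS'.le.trans h1, t', h⟩ hS'⟩
  obtain ⟨a, b, hab⟩ := hne
  by_contra hcon
  push Not at hcon
  obtain ⟨f, hf⟩ := h2 0 (edgeOrdered_of fun a b _ _ h => absurd h (hcon _ _))
    (fun a b _ _ h => absurd h (hcon _ _))
  exact hcon _ _ (hf.adj a b hab)

section level

variable (S : SimpleGraph W) (t : ℕ) (x y : W)

/-- The group of a vertex of a level. -/
def grp {L : Type} (b : L → Bool) : (W × Fin t) ⊕ L → W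
  | .inl p => p.1
  | .inr u => if b u then y else x

/-- Special edges: from the first `d` hubs of the group of `x` to the vertices of `L` of type
`true`. -/
def Sp {L : Type} (b : L → Bool) (d : ℕ) (α β : (W × Fin t) ⊕ L) : Prop :=
  ∃ (i : Fin t) (u : L), i.val < d ∧ α = .inl (x, i) ∧ β = .inr u ∧ b u = true

/-- The graph of a level with `d` special hubs. -/
def levG {L : Type} (b : L → Bool) (d : ℕ) : SimpleGraph ((W × Fin t) ⊕ L) where
  Adj α β := (S.Adj (grp t x y b α) (grp t x y b β) ∧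
      s(grp t x y b α, grp t x y b β) ≠ s(x, y)) ∨ Sp t x b d α β ∨ Sp t x b d β α
  symm := ⟨by
    rintro α β (⟨h1, h2⟩ | h | h)
    · exact Or.inl ⟨h1.symm, by rwa [Sym2.eq_swap]⟩
    · exact Or.inr (Or.inr h)
    · exact Or.inr (Or.inl h)⟩
  loopless := ⟨by
    rintro α (⟨h1, -⟩ | ⟨i, u, -, h1, h2, -⟩ | ⟨i, u, -, h1, h2, -⟩)
    · exact h1.ne rfl
    · rw [h1] at h2; cases h2
    · rw [h1] at h2; cases h2⟩

variable {S t x y}

theorem levG_indep {L : Type} (b : L → Bool) (d : ℕ) (u v : L) :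
    ¬ (levG S t x y b d).Adj (.inr u) (.inr v) := by
  rintro (⟨h1, h2⟩ | ⟨i, u, -, h1, -⟩ | ⟨i, u, -, h1, -⟩)
  · simp only [grp] at h1 h2
    cases hu : b u <;> cases hv : b v <;> simp [hu, hv] at h1 h2
  · cases h1
  · cases h1

theorem sp_class {L : Type} {b : L → Bool} {d : ℕ} {α β : (W × Fin t) ⊕ L}
    (h : Sp t x b d α β) : s(grp t x y b α, grp t x y b β) = s(x, y) := by
  obtain ⟨i, u, -, rfl, rfl, hu⟩ := h
  simp [grp, hu]

theorem levG_class (hxy : S.Adj x y) {L : Type} {b : L → Bool} {d : ℕ} {α β : (W × Fin t) ⊕ L}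
    (h : (levG S t x y b d).Adj α β) : s(grp t x y b α, grp t x y b β) ∈ S.edgeSet := by
  rcases h with h | h | h
  · exact h.1
  · rw [sp_class h]; exact hxy
  · rw [Sym2.eq_swap, sp_class h]; exact hxy

/-- `Pd d`: levels with `d` special hubs have avoiding orders. -/
def Pd (G : SimpleGraph W) (lG : Sym2 W → ℝ) (S : SimpleGraph W) (t : ℕ) (x y : W) (d : ℕ) :
    Prop :=
  ∀ (N : ℕ) (b : Fin N → Bool), ∃ l, EdgeOrdered (levG S t x y b d) l ∧
    Resp lG (grp t x y b) (levG S t x y b d) l ∧ ¬ WC (levG S t x y b d) l G lG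

theorem pd_zero {G : SimpleGraph W} {lG : Sym2 W → ℝ} (hxy : S.Adj x y)
    (hmin : ∀ S' < S, ∀ t', ¬ Rt G lG S' t') : Pd G lG S t x y 0 := by
  classical
  intro N b
  have hlt : S.deleteEdges {s(x, y)} < S := by
    refine lt_of_le_of_ne (deleteEdges_le _) fun h => ?_
    have : (S.deleteEdges {s(x, y)}).Adj x y := by rw [h]; exact hxy
    simp at this
  have h1 := hmin _ hlt (t + N)
  unfold Rt at h1
  push Not at h1
  obtain ⟨l, hv, hr, hf⟩ := h1
  let φ : (W × Fin t) ⊕ Fin N → W × Fin (t + N) := fun α =>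
    (grp t x y b α, Sum.elim (fun p => Fin.castAdd N p.2) (fun u => Fin.natAdd t u) α)
  have hφ : Function.Injective φ := by
    rintro (⟨a, i⟩ | u) (⟨c, j⟩ | v) h
    · simp only [φ, grp, Sum.elim_inl, Prod.mk.injEq] at h
      rw [h.1, Fin.castAdd_injective _ _ h.2]
    · have := congrArg (fun p => p.2.val) h
      simp [φ] at this; omega
    · have := congrArg (fun p => p.2.val) h
      simp [φ] at this; omega
    · have := congrArg (fun p => p.2.val) h
      simp [φ] at this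
      rw [Fin.ext this]
  have hadj : ∀ α β, (levG S t x y b 0).Adj α β →
      ((S.deleteEdges {s(x, y)}).comap Prod.fst).Adj (φ α) (φ β) := by
    rintro α β (⟨h1, h2⟩ | ⟨i, u, h, -⟩ | ⟨i, u, h, -⟩)
    · simp only [comap_adj, deleteEdges_adj, φ]
      exact ⟨h1, by simpa using h2⟩
    · omega
    · omega
  refine ⟨l ∘ Sym2.map φ, edgeOrdered_pullback hv hφ hadj, ?_,
    fun h => hf (h.emb (emb_pullback l hφ hadj))⟩
  intro α β γ δ h1 h2 h3
  simpa using hr _ _ _ _ (hadj _ _ h1) (hadj _ _ h2) h3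

theorem not_pd_top {G : SimpleGraph W} {lG : Sym2 W → ℝ} (hxy : S.Adj x y)
    (hR : Rt G lG S t) : ¬ Pd G lG S t x y t := by
  classical
  intro h
  obtain ⟨l, hv, hr, hf⟩ := h t (fun _ => true)
  let φ : W × Fin t → (W × Fin t) ⊕ Fin t := fun p => if p.1 = y then .inr p.2 else .inl p
  have hg : ∀ p, grp t x y (fun _ => true) (φ p) = p.1 := by
    intro p
    by_cases hp : p.1 = y <;> simp [φ, hp, grp]
  have hφ : Function.Injective φ := by
    intro p q hpq
    have h1 : p.1 = q.1 := by rw [← hg p, ← hg q, hpq]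
    by_cases hp : p.1 = y
    · have hq : q.1 = y := h1 ▸ hp
      simp only [φ, hp, hq, if_true, Sum.inr.injEq] at hpq
      exact Prod.ext h1 hpq
    · have hq : ¬ q.1 = y := h1 ▸ hp
      simpa [φ, hp, hq] using hpq
  have hadj : ∀ p q, (S.comap Prod.fst).Adj p q →
      (levG S t x y (fun _ => true) t).Adj (φ p) (φ q) := by
    intro p q hpq
    by_cases he : s(p.1, q.1) = s(x, y)
    · right
      rcases Sym2.eq_iff.1 he with ⟨h1, h2⟩ | ⟨h1, h2⟩
      · left
        refine ⟨p.2, q.2, p.2.2, ?_, ?_, rfl⟩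
        · have : ¬ p.1 = y := by rw [h1]; exact hxy.ne
          simp only [φ, this, if_false, ← h1]
        · simp [φ, h2]
      · right
        refine ⟨q.2, p.2, q.2.2, ?_, ?_, rfl⟩
        · have : ¬ q.1 = y := by rw [h2]; exact hxy.ne
          simp only [φ, this, if_false, ← h2]
        · simp [φ, h1]
    · left
      rw [hg, hg]
      exact ⟨hpq, he⟩
  apply hf
  refine (hR (l ∘ Sym2.map φ) (edgeOrdered_pullback hv hφ hadj) ?_).emb (emb_pullback l hφ hadj)
  intro α β γ δ h1 h2 h3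
  have := hr _ _ _ _ (hadj _ _ h1) (hadj _ _ h2) (by rwa [hg, hg, hg, hg])
  simpa using this

end level

theorem ncard_le_of_fibers' {α β : Type} [Finite α] [Finite β] (s : Set (α × β)) (D : ℕ)
    (h : ∀ b, {a | (a, b) ∈ s}.ncard ≤ D) : s.ncard ≤ D * Nat.card β := by
  rw [← Set.ncard_image_of_injective s Prod.swap_injective]
  apply ncard_le_of_fibers
  intro b
  refine le_trans (le_of_eq ?_) (h b)
  congr 1
  ext a
  simp

/-- The level lemma: an avoiding level below which only few crossing edges can be added. -/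
theorem level_low [Finite W] (G : SimpleGraph W) (lG : Sym2 W → ℝ) (hne : ∃ a b, G.Adj a b) :
    ∃ c D : ℕ, ∀ (N : ℕ) (b : Fin N → Bool), ∃ A : Str (Fin N), Nat.card A.C ≤ c ∧
      ¬ WC A.H A.l G lG ∧
      ∀ (V : Type) (H : SimpleGraph V) (lH : Sym2 V → ℝ) (φ : A.C ⊕ Fin N → V),
        EdgeOrdered H lH → ¬ WC H lH G lG → Emb φ A.H A.l H lH →
        (LowSet A H lH φ ∩ {p | b p.1 = false ∧ b p.2 = true}).ncard ≤ D * N := by
  classical
  obtain ⟨S, t, -, hR, ⟨a0, b0', hab0⟩, hmin⟩ := exists_min_template G lG hne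
  obtain ⟨⟨x, y⟩, hxy, hlow⟩ := Set.exists_min_image {p : W × W | S.Adj p.1 p.2}
    (fun p => lG s(p.1, p.2)) (Set.toFinite _) ⟨(a0, b0'), hab0⟩
  have hxy : S.Adj x y := hxy
  have hlow' : ∀ e ∈ S.edgeSet, lG s(x, y) ≤ lG e := by
    intro e he
    induction e using Sym2.ind with
    | _ a b => exact hlow (a, b) he
  obtain ⟨d, hd, hP, hnP⟩ : ∃ d < t, Pd G lG S t x y d ∧ ¬ Pd G lG S t x y (d + 1) := by
    by_contra hcon
    push Not at hcon
    have : ∀ d ≤ t, Pd G lG S t x y d := by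
      intro d
      induction d with
      | zero => exact fun _ => pd_zero hxy hmin
      | succ d ih => exact fun h => hcon d (by omega) (ih (by omega))
    exact not_pd_top hxy hR (this t le_rfl)
  unfold Pd at hnP
  push Not at hnP
  obtain ⟨N0, b0, hN0⟩ := hnP
  refine ⟨Nat.card (W × Fin t), N0, fun N b => ?_⟩
  obtain ⟨l, hv, hr, hf⟩ := hP N b
  refine ⟨⟨W × Fin t, inferInstance, levG S t x y b d, l, hv, levG_indep b d⟩, le_rfl, hf, ?_⟩
  intro V H lH φ hH hHf hφ
  have hcN : Nat.card (Fin N) = N := by simp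
  by_cases hL : {u : Fin N | b u = false}.ncard ≤ N0
  · have := ncard_le_of_fibers' (LowSet ⟨W × Fin t, inferInstance, levG S t x y b d, l, hv,
      levG_indep b d⟩ H lH φ ∩ {p | b p.1 = false ∧ b p.2 = true}) N0
      (fun w => le_trans (Set.ncard_le_ncard (fun u hu => hu.2.1) (Set.toFinite _)) hL)
    rwa [hcN] at this
  have := ncard_le_of_fibers (LowSet ⟨W × Fin t, inferInstance, levG S t x y b d, l, hv,
      levG_indep b d⟩ H lH φ ∩ {p | b p.1 = false ∧ b p.2 = true}) N0 ?_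
  · rwa [hcN] at this
  intro v
  by_contra hbig
  push Not at hbig hL
  obtain ⟨g1, hg1, hg1'⟩ := exists_inj_of_le_ncard _ (Set.toFinite _) N0 hbig.le
  have hv0 : b v = false := by
    obtain ⟨w, hw⟩ := Set.nonempty_of_ncard_ne_zero (by omega : _ ≠ 0) |>.imp
      (fun w (hw : w ∈ {w | (v, w) ∈ LowSet ⟨W × Fin t, inferInstance, levG S t x y b d, l, hv,
      levG_indep b d⟩ H lH φ ∩ {p | b p.1 = false ∧ b p.2 = true}}) => hw.2.1)
    exact hw
  obtain ⟨g0, hg0, hg0'⟩ := exists_inj_of_le_ncard ({u : Fin N | b u = false} \ {v})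
    (Set.toFinite _) N0 (by
      rw [Set.ncard_sdiff_singleton_of_mem (by exact hv0)]; omega)
  let κ : Fin N0 → Fin N := fun j => if b0 j then g1 j else g0 j
  have hκb : ∀ j, b (κ j) = b0 j := by
    intro j
    cases hj : b0 j
    · simp only [κ, hj]; exact (hg0' j).1
    · simp only [κ, hj]; exact (hg1' j).2.2
  have hκv : ∀ j, κ j ≠ v := by
    intro j h
    have h1 := hκb j
    rw [h, hv0] at h1
    simp only [κ, ← h1] at h
    exact (hg0' j).2 h
  have hκ : Function.Injective κ := by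
    intro i j h
    have h1 : b0 i = b0 j := by rw [← hκb i, ← hκb j, h]
    cases hj : b0 j
    · rw [hj] at h1
      simp only [κ, hj, h1] at h
      exact hg0 h
    · rw [hj] at h1
      simp only [κ, hj, h1] at h
      exact hg1 h
  let ψ : (W × Fin t) ⊕ Fin N0 → (W × Fin t) ⊕ Fin N :=
    Sum.elim (fun p => if p = (x, ⟨d, hd⟩) then .inr v else .inl p) (fun j => .inr (κ j))
  have hψg : ∀ α, grp t x y b (ψ α) = grp t x y b0 α := by
    rintro (p | j)
    · by_cases hp : p = (x, ⟨d, hd⟩)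
      · simp [ψ, hp, grp, hv0]
      · simp [ψ, hp, grp]
    · simp [ψ, grp, hκb]
  have hψ : Function.Injective ψ := by
    rintro (p | i) (q | j) h
    · by_cases hp : p = (x, ⟨d, hd⟩) <;> by_cases hq : q = (x, ⟨d, hd⟩) <;>
        simp_all [ψ]
    · by_cases hp : p = (x, ⟨d, hd⟩)
      · simp only [ψ, hp, Sum.elim_inl, Sum.elim_inr, if_true, Sum.inr.injEq] at h
        exact absurd h.symm (hκv j)
      · simp [ψ, hp] at h
    · by_cases hq : q = (x, ⟨d, hd⟩)
      · simp only [ψ, hq, Sum.elim_inl, Sum.elim_inr, if_true, Sum.inr.injEq] at h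
        exact absurd h (hκv i)
      · simp [ψ, hq] at h
    · simp only [ψ, Sum.elim_inr, Sum.inr.injEq] at h
      rw [hκ h]
  -- every edge is old or new
  have hsp : ∀ α β, Sp t x b0 (d + 1) α β → Sp t x b d (ψ α) (ψ β) ∨
      (H.Adj (φ (ψ α)) (φ (ψ β)) ∧ ∀ γ δ, (levG S t x y b d).Adj γ δ →
        lH s(φ (ψ α), φ (ψ β)) < lH s(φ γ, φ δ)) := by
    rintro α β ⟨i, j, hi, rfl, rfl, hj⟩
    by_cases hid : i.val = d
    · right
      have h1 : ψ (.inl (x, i)) = .inr v := by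
        have : (x, i) = (x, (⟨d, hd⟩ : Fin t)) := by rw [Fin.ext (a := i) (b := ⟨d, hd⟩) hid]
        simp [ψ, this]
      have h2 : ψ (.inr j) = .inr (g1 j) := by simp [ψ, κ, hj]
      rw [h1, h2]
      exact (hg1' j).1
    · left
      refine ⟨i, κ j, by omega, ?_, rfl, by rw [hκb, hj]⟩
      have : (x, i) ≠ (x, (⟨d, hd⟩ : Fin t)) := fun h => hid (congrArg (fun p => p.2.val) h)
      simp [ψ, this]
  have hcase : ∀ α β, (levG S t x y b0 (d + 1)).Adj α β →
      (levG S t x y b d).Adj (ψ α) (ψ β) ∨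
      (s(grp t x y b0 α, grp t x y b0 β) = s(x, y) ∧ H.Adj (φ (ψ α)) (φ (ψ β)) ∧
        ∀ γ δ, (levG S t x y b d).Adj γ δ → lH s(φ (ψ α), φ (ψ β)) < lH s(φ γ, φ δ)) := by
    rintro α β (h | h | h)
    · left; left; rwa [hψg, hψg]
    · rcases hsp α β h with h' | h'
      · exact Or.inl (Or.inr (Or.inl h'))
      · exact Or.inr ⟨sp_class h, h'⟩
    · rcases hsp β α h with h' | h'
      · exact Or.inl (Or.inr (Or.inr h'))
      · refine Or.inr ⟨by rw [Sym2.eq_swap]; exact sp_class h, h'.1.symm, ?_⟩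
        rw [Sym2.eq_swap]; exact h'.2
  have hadj : ∀ α β, (levG S t x y b0 (d + 1)).Adj α β → H.Adj ((φ ∘ ψ) α) ((φ ∘ ψ) β) := by
    intro α β h
    rcases hcase α β h with h' | h'
    · exact hφ.adj _ _ h'
    · exact h'.2.1
  have hinj : Function.Injective (φ ∘ ψ) := hφ.inj.comp hψ
  apply hHf
  refine (hN0 (lH ∘ Sym2.map (φ ∘ ψ)) (edgeOrdered_pullback hH hinj hadj) ?_).emb
    (emb_pullback lH hinj hadj)
  intro α β γ δ h1 h2 h3
  simp only [Function.comp, Sym2.map_mk]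
  rcases hcase γ δ h2 with h2' | h2'
  · rcases hcase α β h1 with h1' | h1'
    · exact hφ.ord _ _ _ _ h1' h2' (hr _ _ _ _ h1' h2' (by rwa [hψg, hψg, hψg, hψg]))
    · exact h1'.2.2 _ _ h2'
  · rw [h2'.1] at h3
    exact absurd h3 (not_lt.2 (hlow' _ (levG_class hxy h1)))

theorem wc_neg {H : SimpleGraph V} {l : Sym2 V → ℝ} {G : SimpleGraph W} {lG : Sym2 W → ℝ}
    (h : WC H l G lG) : WC H (-l) G (-lG) := by
  obtain ⟨f, hf⟩ := h
  refine ⟨f, hf.inj, hf.adj, fun a b c d hab hcd h => ?_⟩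
  simp only [Pi.neg_apply, neg_lt_neg_iff] at h ⊢
  exact hf.ord c d a b hcd hab h

theorem EdgeOrdered.neg {H : SimpleGraph V} {l : Sym2 V → ℝ} (h : EdgeOrdered H l) :
    EdgeOrdered H (-l) := fun _ he _ he' hl => h he he' (neg_injective hl)

theorem level_high [Finite W] (G : SimpleGraph W) (lG : Sym2 W → ℝ) (hne : ∃ a b, G.Adj a b) :
    ∃ c D : ℕ, ∀ (N : ℕ) (b : Fin N → Bool), ∃ A : Str (Fin N), Nat.card A.C ≤ c ∧
      ¬ WC A.H A.l G lG ∧
      ∀ (V : Type) (H : SimpleGraph V) (lH : Sym2 V → ℝ) (φ : A.C ⊕ Fin N → V),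
        EdgeOrdered H lH → ¬ WC H lH G lG → Emb φ A.H A.l H lH →
        (HighSet A H lH φ ∩ {p | b p.1 = false ∧ b p.2 = true}).ncard ≤ D * N := by
  obtain ⟨c, D, h⟩ := level_low G (-lG) hne
  refine ⟨c, D, fun N b => ?_⟩
  obtain ⟨A, h1, h2, h3⟩ := h N b
  refine ⟨⟨A.C, A.fin, A.H, -A.l, A.valid.neg, A.indep⟩, h1, fun h => h2 ?_, ?_⟩
  · simpa using wc_neg h
  · intro V H lH φ hH hf hφ
    have := h3 V H (-lH) φ hH.neg (fun h => hf (by simpa using wc_neg h))
      ⟨hφ.inj, hφ.adj, fun a b c d hab hcd hl => by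
        simp only [Pi.neg_apply, neg_lt_neg_iff]
        exact hφ.ord c d a b hcd hab (by simpa using hl)⟩
    refine le_trans (le_of_eq ?_) this
    congr 2
    ext p
    simp [HighSet, LowSet]

end Pool.Agent.MP_9b0ed7_co.H41
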