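import Mathlib
import Pool.Agent.MP_9b0ed7_co.H41.Level

set_option autoImplicit false

namespace Pool.Agent.MP_9b0ed7_co.H41

open SimpleGraph

variable {V W L : Type}

def i1 (A B : Str L) : A.C ⊕ L → (A.C ⊕ B.C) ⊕ L := Sum.map .inl id
def i2 (A B : Str L) : B.C ⊕ L → (A.C ⊕ B.C) ⊕ L := Sum.map .inr id

theorem i1_inj (A B : Str L) : Function.Injective (i1 A B) :=
  Sum.map_injective.2 ⟨Sum.inl_injective, Function.injective_id⟩
theorem i2_inj (A B : Str L) : Function.Injective (i2 A B) :=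
  Sum.map_injective.2 ⟨Sum.inr_injective, Function.injective_id⟩

theorem i1_eq_i2 {A B : Str L} {α : A.C ⊕ L} {β : B.C ⊕ L} (h : i1 A B α = i2 A B β) :
    ∃ u, α = .inr u ∧ β = .inr u := by
  rcases α with α | α <;> rcases β with β | β <;> simp_all [i1, i2]

theorem not_both (A B : Str L) {u v : (A.C ⊕ B.C) ⊕ L} (h1 : (pushG (i1 A B) A.H).Adj u v)
    (h2 : (pushG (i2 A B) B.H).Adj u v) : False := by
  obtain ⟨-, a, b, hab, rfl, rfl⟩ := h1
  obtain ⟨-, c, d, -, h3, h4⟩ := h2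
  obtain ⟨u, rfl, -⟩ := i1_eq_i2 h3.symm
  obtain ⟨v, rfl, -⟩ := i1_eq_i2 h4.symm
  exact A.indep u v hab

open Classical in
noncomputable def sumL (A B : Str L) (e : Sym2 ((A.C ⊕ B.C) ⊕ L)) : ℝ :=
  if e ∈ (pushG (i1 A B) A.H).edgeSet then Real.arctan (pushL (i1 A B) A.l e)
  else 6 + Real.arctan (pushL (i2 A B) B.l e)

theorem sumL_1 {A B : Str L} {a b : A.C ⊕ L} (h : A.H.Adj a b) :
    sumL A B s(i1 A B a, i1 A B b) = Real.arctan (A.l s(a, b)) := by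
  have : s(i1 A B a, i1 A B b) ∈ (pushG (i1 A B) A.H).edgeSet := pushG_adj (i1_inj A B) h
  rw [sumL, if_pos this, pushL_apply (i1_inj A B)]

theorem sumL_2 {A B : Str L} {a b : B.C ⊕ L} (h : B.H.Adj a b) :
    sumL A B s(i2 A B a, i2 A B b) = 6 + Real.arctan (B.l s(a, b)) := by
  have : s(i2 A B a, i2 A B b) ∉ (pushG (i1 A B) A.H).edgeSet :=
    fun h' => not_both A B h' (pushG_adj (i2_inj A B) h)
  rw [sumL, if_neg this, pushL_apply (i2_inj A B)]

theorem arctan_lt_six (x y : ℝ) : Real.arctan x < 6 + Real.arctan y := by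
  have h1 := Real.arctan_lt_pi_div_two x
  have h2 := Real.neg_pi_div_two_lt_arctan y
  have h3 := Real.pi_lt_four
  linarith

/-- `A` placed below `B`, sharing only `L`. -/
noncomputable def Str.sum (A B : Str L) : Str L where
  C := A.C ⊕ B.C
  fin := inferInstance
  H := pushG (i1 A B) A.H ⊔ pushG (i2 A B) B.H
  l := sumL A B
  valid := by
    apply edgeOrdered_of
    rintro _ _ _ _ (⟨-, a, b, hab, rfl, rfl⟩ | ⟨-, a, b, hab, rfl, rfl⟩)
      (⟨-, c, d, hcd, rfl, rfl⟩ | ⟨-, c, d, hcd, rfl, rfl⟩) hl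
    · rw [sumL_1 hab, sumL_1 hcd] at hl
      have := congrArg (Sym2.map (i1 A B)) (A.valid.eq_of hab hcd (Real.arctan_injective hl))
      simpa using this
    · rw [sumL_1 hab, sumL_2 hcd] at hl
      exact absurd hl (arctan_lt_six _ _).ne
    · rw [sumL_2 hab, sumL_1 hcd] at hl
      exact absurd hl (arctan_lt_six _ _).ne'
    · rw [sumL_2 hab, sumL_2 hcd] at hl
      have := congrArg (Sym2.map (i2 A B))
        (B.valid.eq_of hab hcd (Real.arctan_injective (add_left_cancel hl)))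
      simpa using this
  indep := by
    rintro u v (⟨-, a, b, hab, h1, h2⟩ | ⟨-, a, b, hab, h1, h2⟩)
    · have e1 : a = .inr u := i1_inj A B h1
      have e2 : b = .inr v := i1_inj A B h2
      rw [e1, e2] at hab
      exact A.indep u v hab
    · have e1 : a = .inr u := i2_inj A B h1
      have e2 : b = .inr v := i2_inj A B h2
      rw [e1, e2] at hab
      exact B.indep u v hab

theorem sum_card (A B : Str L) : Nat.card (A.sum B).C = Nat.card A.C + Nat.card B.C :=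
  Nat.card_sum

theorem emb_i1 (A B : Str L) : Emb (i1 A B) A.H A.l (A.sum B).H (A.sum B).l :=
  ⟨i1_inj A B, fun _ _ h => Or.inl (pushG_adj (i1_inj A B) h), fun a b c d hab hcd h => by
    change sumL A B _ < sumL A B _
    rw [sumL_1 hab, sumL_1 hcd]; exact Real.arctan_strictMono h⟩

theorem emb_i2 (A B : Str L) : Emb (i2 A B) B.H B.l (A.sum B).H (A.sum B).l :=
  ⟨i2_inj A B, fun _ _ h => Or.inr (pushG_adj (i2_inj A B) h), fun a b c d hab hcd h => by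
    change sumL A B _ < sumL A B _
    rw [sumL_2 hab, sumL_2 hcd]; linarith [Real.arctan_strictMono h]⟩

theorem sum_sep {A B : Str L} {a b : A.C ⊕ L} {c d : B.C ⊕ L} (hab : A.H.Adj a b)
    (hcd : B.H.Adj c d) :
    (A.sum B).l s(i1 A B a, i1 A B b) < (A.sum B).l s(i2 A B c, i2 A B d) := by
  exact (sumL_1 (B := B) hab).trans_lt ((arctan_lt_six _ _).trans_eq (sumL_2 hcd).symm)

/-- The pair `u, v` is an edge of the lower part. -/
def InLo (A B : Str L) (u v : (A.C ⊕ B.C) ⊕ L) : Prop :=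
  ∃ a b, A.H.Adj a b ∧ i1 A B a = u ∧ i1 A B b = v

/-- The pair `u, v` is an edge of the upper part. -/
def InHi (A B : Str L) (u v : (A.C ⊕ B.C) ⊕ L) : Prop :=
  ∃ a b, B.H.Adj a b ∧ i2 A B a = u ∧ i2 A B b = v

theorem sum_adj {A B : Str L} {u v : (A.C ⊕ B.C) ⊕ L} (h : (A.sum B).H.Adj u v) :
    InLo A B u v ∨ InHi A B u v := h.imp (fun h => h.2) (fun h => h.2)

theorem IsCopy.hi_of_le {A B : Str L} {G : SimpleGraph W} {lG : Sym2 W → ℝ}
    {f : W → (A.C ⊕ B.C) ⊕ L} (hf : IsCopy f G lG (A.sum B).H (A.sum B).l)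
    {a b c d : W} (hab : G.Adj a b) (hcd : G.Adj c d) (h : lG s(a, b) < lG s(c, d))
    (hi : InHi A B (f a) (f b)) : InHi A B (f c) (f d) := by
  rcases sum_adj (hf.adj c d hcd) with ⟨α, β, h1, h2, h3⟩ | h'
  · obtain ⟨γ, δ, h4, h5, h6⟩ := hi
    have e1 := hf.ord a b c d hab hcd h
    have e2 := sum_sep h1 h4
    rw [h2, h3, h5, h6] at e2
    exact absurd e1 (not_lt.2 e2.le)
  · exact h'

/-- No cut of the edge order has an independent boundary. -/
def CutFree (G : SimpleGraph W) (lG : Sym2 W → ℝ) : Prop :=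
  ∀ t : ℝ, (∃ a b, G.Adj a b ∧ lG s(a, b) ≤ t) → (∃ a b, G.Adj a b ∧ t < lG s(a, b)) →
    ∃ a b, G.Adj a b ∧ Straddles G lG t a ∧ Straddles G lG t b

theorem InLo.symm {A B : Str L} {u v : (A.C ⊕ B.C) ⊕ L} (h : InLo A B u v) : InLo A B v u :=
  let ⟨a, b, h1, h2, h3⟩ := h; ⟨b, a, h1.symm, h3, h2⟩

theorem IsCopy.split [Finite W] {A B : Str L} {G : SimpleGraph W} {lG : Sym2 W → ℝ}
    (hG : EdgeOrdered G lG) (hc : CutFree G lG)
    {f : W → (A.C ⊕ B.C) ⊕ L} (hf : IsCopy f G lG (A.sum B).H (A.sum B).l) :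
    (∀ a b, G.Adj a b → InLo A B (f a) (f b)) ∨ ∀ a b, G.Adj a b → InHi A B (f a) (f b) := by
  by_contra hcon
  push Not at hcon
  obtain ⟨⟨a1, b1, h1, h1'⟩, a2, b2, h2, h2'⟩ := hcon
  have hhi : InHi A B (f a1) (f b1) := (sum_adj (hf.adj _ _ h1)).resolve_left h1'
  have hlo : InLo A B (f a2) (f b2) := (sum_adj (hf.adj _ _ h2)).resolve_right h2'
  obtain ⟨⟨p, q⟩, ⟨hpq, hpq'⟩, hmax⟩ := Set.exists_max_image
    {p : W × W | G.Adj p.1 p.2 ∧ ¬ InHi A B (f p.1) (f p.2)} (fun p => lG s(p.1, p.2))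
    (Set.toFinite _) ⟨(a2, b2), h2, h2'⟩
  simp only at hpq hpq' hmax
  have hle : ∀ a b, G.Adj a b → lG s(a, b) ≤ lG s(p, q) → InLo A B (f a) (f b) := by
    intro a b hab hl
    rcases hl.lt_or_eq with hl | hl
    · exact (sum_adj (hf.adj _ _ hab)).resolve_right
        fun h => hpq' (hf.hi_of_le hab hpq hl h)
    · have hpqlo : InLo A B (f p) (f q) := (sum_adj (hf.adj _ _ hpq)).resolve_right hpq'
      rcases Sym2.eq_iff.1 (hG.eq_of hab hpq hl) with ⟨rfl, rfl⟩ | ⟨rfl, rfl⟩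
      · exact hpqlo
      · exact hpqlo.symm
  have hgt : ∀ a b, G.Adj a b → lG s(p, q) < lG s(a, b) → InHi A B (f a) (f b) := by
    intro a b hab hl
    by_contra h
    exact absurd (hmax (a, b) ⟨hab, h⟩) (not_le.2 hl)
  have hinL : ∀ a, Straddles G lG (lG s(p, q)) a → ∃ u, f a = .inr u := by
    rintro a ⟨⟨b, hb, hb'⟩, c, hc, hc'⟩
    obtain ⟨α, β, -, e1, -⟩ := hle a b hb hb'
    obtain ⟨γ, δ, -, e2, -⟩ := hgt a c hc hc'
    obtain ⟨u, rfl, -⟩ := i1_eq_i2 (e1.trans e2.symm)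
    exact ⟨u, e1.symm⟩
  obtain ⟨a, b, hab, ha, hb⟩ := hc (lG s(p, q)) ⟨p, q, hpq, le_rfl⟩ ⟨a1, b1, h1, by
    by_contra h
    exact h1' (hle a1 b1 h1 (not_lt.1 h))⟩
  obtain ⟨u, hu⟩ := hinL a ha
  obtain ⟨v, hv⟩ := hinL b hb
  have := hf.adj a b hab
  rw [hu, hv] at this
  exact (A.sum B).indep u v this

theorem sum_free [Finite W] {A B : Str L} {G : SimpleGraph W} {lG : Sym2 W → ℝ}
    (hG : EdgeOrdered G lG) (hc : CutFree G lG) (hne : ∃ a b, G.Adj a b)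
    (hA : ¬ WC A.H A.l G lG) (hB : ¬ WC B.H B.l G lG) : ¬ WC (A.sum B).H (A.sum B).l G lG := by
  rintro ⟨f, hf⟩
  rcases hf.split hG hc with h | h
  · exact hA (WC.pull hf (emb_i1 A B) A.valid hne h)
  · exact hB (WC.pull hf (emb_i2 A B) B.valid hne h)

/-- The structure without hubs. -/
def Str.empty (L : Type) : Str L where
  C := Empty
  fin := inferInstance
  H := ⊥
  l := 0
  valid := edgeOrdered_of fun _ _ _ _ h => h.elim
  indep := fun _ _ h => h.elim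

theorem stack_low [Finite W] {G : SimpleGraph W} {lG : Sym2 W → ℝ}
    (hG : EdgeOrdered G lG) (hc : CutFree G lG) (hne : ∃ a b, G.Adj a b) :
    ∃ c D : ℕ, ∀ (N k : ℕ) (b : ℕ → Fin N → Bool), ∃ A : Str (Fin N), Nat.card A.C ≤ c * k ∧
      ¬ WC A.H A.l G lG ∧
      ∀ (V : Type) (H : SimpleGraph V) (lH : Sym2 V → ℝ) (φ : A.C ⊕ Fin N → V),
        EdgeOrdered H lH → ¬ WC H lH G lG → Emb φ A.H A.l H lH →
        (LowSet A H lH φ ∩ {p | ∃ i < k, b i p.1 = false ∧ b i p.2 = true}).ncard ≤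
          D * k * N := by
  obtain ⟨c, D, h⟩ := level_low G lG hne
  refine ⟨c, D, fun N k b => ?_⟩
  induction k with
  | zero =>
    refine ⟨Str.empty _, by simp [Str.empty], ?_, ?_⟩
    · rintro ⟨f, hf⟩
      obtain ⟨a, b, hab⟩ := hne
      exact hf.adj a b hab
    · intro V H lH φ _ _ _
      simp
  | succ k ih =>
    obtain ⟨A, hA1, hA2, hA3⟩ := ih
    obtain ⟨B, hB1, hB2, hB3⟩ := h N (b k)
    refine ⟨A.sum B, by rw [sum_card]; nlinarith, sum_free hG hc hne hA2 hB2, ?_⟩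
    intro V H lH φ hH hf hφ
    have e1 := hA3 V H lH _ hH hf ((emb_i1 A B).comp hφ)
    have e2 := hB3 V H lH _ hH hf ((emb_i2 A B).comp hφ)
    refine le_trans (Set.ncard_le_ncard ?_ (Set.toFinite _))
      ((Set.ncard_union_le _ _).trans ((add_le_add e1 e2).trans (le_of_eq (by ring))))
    rintro p ⟨⟨hp1, hp2⟩, i, hi, hp3⟩
    rcases Nat.lt_succ_iff_lt_or_eq.1 hi with hi | rfl
    · exact Or.inl ⟨⟨hp1, fun α β h => hp2 _ _ ((emb_i1 A B).adj _ _ h)⟩, i, hi, hp3⟩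
    · exact Or.inr ⟨⟨hp1, fun α β h => hp2 _ _ ((emb_i2 A B).adj _ _ h)⟩, hp3⟩

theorem stack_high [Finite W] {G : SimpleGraph W} {lG : Sym2 W → ℝ}
    (hG : EdgeOrdered G lG) (hc : CutFree G lG) (hne : ∃ a b, G.Adj a b) :
    ∃ c D : ℕ, ∀ (N k : ℕ) (b : ℕ → Fin N → Bool), ∃ A : Str (Fin N), Nat.card A.C ≤ c * k ∧
      ¬ WC A.H A.l G lG ∧
      ∀ (V : Type) (H : SimpleGraph V) (lH : Sym2 V → ℝ) (φ : A.C ⊕ Fin N → V),
        EdgeOrdered H lH → ¬ WC H lH G lG → Emb φ A.H A.l H lH →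
        (HighSet A H lH φ ∩ {p | ∃ i < k, b i p.1 = false ∧ b i p.2 = true}).ncard ≤
          D * k * N := by
  obtain ⟨c, D, h⟩ := level_high G lG hne
  refine ⟨c, D, fun N k b => ?_⟩
  induction k with
  | zero =>
    refine ⟨Str.empty _, by simp [Str.empty], ?_, ?_⟩
    · rintro ⟨f, hf⟩
      obtain ⟨a, b, hab⟩ := hne
      exact hf.adj a b hab
    · intro V H lH φ _ _ _
      simp
  | succ k ih =>
    obtain ⟨A, hA1, hA2, hA3⟩ := ih
    obtain ⟨B, hB1, hB2, hB3⟩ := h N (b k)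
    refine ⟨A.sum B, by rw [sum_card]; nlinarith, sum_free hG hc hne hA2 hB2, ?_⟩
    intro V H lH φ hH hf hφ
    have e1 := hA3 V H lH _ hH hf ((emb_i1 A B).comp hφ)
    have e2 := hB3 V H lH _ hH hf ((emb_i2 A B).comp hφ)
    refine le_trans (Set.ncard_le_ncard ?_ (Set.toFinite _))
      ((Set.ncard_union_le _ _).trans ((add_le_add e1 e2).trans (le_of_eq (by ring))))
    rintro p ⟨⟨hp1, hp2⟩, i, hi, hp3⟩
    rcases Nat.lt_succ_iff_lt_or_eq.1 hi with hi | rfl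
    · exact Or.inl ⟨⟨hp1, fun α β h => hp2 _ _ ((emb_i1 A B).adj _ _ h)⟩, i, hi, hp3⟩
    · exact Or.inr ⟨⟨hp1, fun α β h => hp2 _ _ ((emb_i2 A B).adj _ _ h)⟩, hp3⟩

/-- Adjacent pairs of `L`. -/
def AdjSet (A : Str L) (H : SimpleGraph V) (φ : A.C ⊕ L → V) : Set (L × L) :=
  {p | H.Adj (φ (.inr p.1)) (φ (.inr p.2))}

/-- `A` avoids `G`, and every avoiding extension has at most `M` adjacent pairs in `L`. -/
def Kills (G : SimpleGraph W) (lG : Sym2 W → ℝ) (A : Str L) (M : ℕ) : Prop :=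
  ¬ WC A.H A.l G lG ∧
    ∀ (V : Type) (H : SimpleGraph V) (lH : Sym2 V → ℝ) (φ : A.C ⊕ L → V),
      EdgeOrdered H lH → ¬ WC H lH G lG → Emb φ A.H A.l H lH → (AdjSet A H φ).ncard ≤ M

theorem exists_bit {N k : ℕ} (hN : N ≤ 2 ^ k) {u v : Fin N} (h : u ≠ v) :
    ∃ i < k, u.val.testBit i ≠ v.val.testBit i := by
  by_contra hcon
  push Not at hcon
  apply h
  apply Fin.ext
  apply Nat.eq_of_testBit_eq
  intro i
  by_cases hi : i < k
  · exact hcon i hi
  · have h2 : 2 ^ k ≤ 2 ^ i := Nat.pow_le_pow_right (by norm_num) (not_lt.1 hi)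
    rw [Nat.testBit_lt_two_pow (by omega), Nat.testBit_lt_two_pow (by omega)]

theorem zone [Finite W] {G : SimpleGraph W} {lG : Sym2 W → ℝ}
    (hG : EdgeOrdered G lG) (hc : CutFree G lG) (hne : ∃ a b, G.Adj a b) :
    ∃ c D : ℕ, ∀ N k : ℕ, N ≤ 2 ^ k → ∃ A : Str (Fin N), Nat.card A.C ≤ c * k ∧
      Kills G lG A (D * k * N) := by
  obtain ⟨c1, D1, h1⟩ := stack_high hG hc hne
  obtain ⟨c2, D2, h2⟩ := stack_low hG hc hne
  refine ⟨c1 + c2, 2 * (D1 + D2), fun N k hN => ?_⟩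
  obtain ⟨A, hA1, hA2, hA3⟩ := h1 N k (fun i u => u.val.testBit i)
  obtain ⟨B, hB1, hB2, hB3⟩ := h2 N k (fun i u => u.val.testBit i)
  refine ⟨A.sum B, by rw [sum_card]; nlinarith, sum_free hG hc hne hA2 hB2, ?_⟩
  intro V H lH φ hH hf hφ
  have e1 := hA3 V H lH _ hH hf ((emb_i1 A B).comp hφ)
  have e2 := hB3 V H lH _ hH hf ((emb_i2 A B).comp hφ)
  let T : Set (Fin N × Fin N) := AdjSet (A.sum B) H φ ∩
    {p | ∃ i < k, p.1.val.testBit i = false ∧ p.2.val.testBit i = true}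
  have hT : T.ncard ≤ (D1 + D2) * k * N := by
    refine le_trans (Set.ncard_le_ncard ?_ (Set.toFinite _))
      ((Set.ncard_union_le _ _).trans ((add_le_add e1 e2).trans (le_of_eq (by ring))))
    rintro p ⟨hp1, hp2⟩
    by_cases hlow : ∀ α β, B.H.Adj α β → lH s(φ (.inr p.1), φ (.inr p.2)) <
        lH s(φ (i2 A B α), φ (i2 A B β))
    · exact Or.inr ⟨⟨hp1, hlow⟩, hp2⟩
    · push Not at hlow
      obtain ⟨γ, δ, h3, h4⟩ := hlow
      refine Or.inl ⟨⟨hp1, fun α β h => lt_of_lt_of_le ?_ h4⟩, hp2⟩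
      exact hφ.ord _ _ _ _ ((emb_i1 A B).adj _ _ h) ((emb_i2 A B).adj _ _ h3) (sum_sep h h3)
  have hsub : AdjSet (A.sum B) H φ ⊆ T ∪ Prod.swap '' T := by
    rintro ⟨u, v⟩ hp
    have huv : u ≠ v := by
      rintro rfl
      exact H.irrefl hp
    obtain ⟨i, hi, hb⟩ := exists_bit hN huv
    cases hu : u.val.testBit i
    · exact Or.inl ⟨hp, i, hi, hu, by simpa [hu] using hb⟩
    · refine Or.inr ⟨(v, u), ⟨SimpleGraph.Adj.symm hp, i, hi, ?_, hu⟩, rfl⟩
      simpa [hu] using hb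
  refine (Set.ncard_le_ncard hsub (Set.toFinite _)).trans ((Set.ncard_union_le _ _).trans ?_)
  rw [Set.ncard_image_of_injective _ Prod.swap_injective]
  nlinarith

end Pool.Agent.MP_9b0ed7_co.H41
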