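import Mathlib
import Pool.Agent.MP_9b0ed7_co.H41.Sum

set_option autoImplicit false

namespace Pool.Agent.MP_9b0ed7_co.H41

open SimpleGraph

variable {V W L : Type}

def below (G : SimpleGraph W) (lG : Sym2 W → ℝ) (t : ℝ) : SimpleGraph W where
  Adj a b := G.Adj a b ∧ lG s(a, b) ≤ t
  symm := ⟨fun _ _ h => ⟨h.1.symm, by rw [Sym2.eq_swap]; exact h.2⟩⟩
  loopless := ⟨fun _ h => G.irrefl h.1⟩

def above (G : SimpleGraph W) (lG : Sym2 W → ℝ) (t : ℝ) : SimpleGraph W where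
  Adj a b := G.Adj a b ∧ t < lG s(a, b)
  symm := ⟨fun _ _ h => ⟨h.1.symm, by rw [Sym2.eq_swap]; exact h.2⟩⟩
  loopless := ⟨fun _ h => G.irrefl h.1⟩

theorem below_le (G : SimpleGraph W) (lG : Sym2 W → ℝ) (t : ℝ) : below G lG t ≤ G :=
  fun _ _ h => h.1
theorem above_le (G : SimpleGraph W) (lG : Sym2 W → ℝ) (t : ℝ) : above G lG t ≤ G :=
  fun _ _ h => h.1
theorem le_below_sup_above (G : SimpleGraph W) (lG : Sym2 W → ℝ) (t : ℝ) :
    G ≤ below G lG t ⊔ above G lG t := fun a b h => by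
  rcases le_or_gt (lG s(a, b)) t with h' | h'
  · exact Or.inl ⟨h, h'⟩
  · exact Or.inr ⟨h, h'⟩

/-- Every cut of the edge order has an empty boundary or a boundary spanning an edge. -/
def Hyp (G : SimpleGraph W) (lG : Sym2 W → ℝ) : Prop :=
  ∀ t : ℝ, (∃ a, Straddles G lG t a) →
    ∃ a b, G.Adj a b ∧ Straddles G lG t a ∧ Straddles G lG t b

structure IsFirst (G : SimpleGraph W) (lG : Sym2 W → ℝ) (τ : ℝ) : Prop where
  ne : ∃ a b, (below G lG τ).Adj a b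
  nostr : ∀ a, ¬ Straddles G lG τ a
  cf : CutFree (below G lG τ) lG

theorem exists_first [Finite W] {G : SimpleGraph W} {lG : Sym2 W → ℝ} (h : Hyp G lG)
    (hne : ∃ a b, G.Adj a b) : ∃ τ, IsFirst G lG τ := by
  obtain ⟨a0, b0, h0⟩ := hne
  obtain ⟨⟨p1, q1⟩, h1, hmax⟩ := Set.exists_max_image {p : W × W | G.Adj p.1 p.2}
    (fun p => lG s(p.1, p.2)) (Set.toFinite _) ⟨(a0, b0), h0⟩
  obtain ⟨⟨p, q⟩, ⟨hpq, hns⟩, hmin⟩ := Set.exists_min_image
    {p : W × W | G.Adj p.1 p.2 ∧ ∀ a, ¬ Straddles G lG (lG s(p.1, p.2)) a}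
    (fun p => lG s(p.1, p.2)) (Set.toFinite _) ⟨(p1, q1), h1, by
      rintro a ⟨-, b, hab, hl⟩
      exact absurd (hmax (a, b) hab) (not_le.2 hl)⟩
  simp only at hpq hns hmin
  refine ⟨lG s(p, q), ⟨p, q, hpq, le_rfl⟩, hns, ?_⟩
  rintro t ⟨a1, b1, h2, h2'⟩ ⟨a2, b2, h3, h3'⟩
  have ht : t < lG s(p, q) := h3'.trans_le h3.2
  have hstr : ∃ a, Straddles G lG t a := by
    by_contra hcon
    push Not at hcon
    obtain ⟨⟨p', q'⟩, ⟨h4, h4'⟩, hmax'⟩ := Set.exists_max_image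
      {p : W × W | G.Adj p.1 p.2 ∧ lG s(p.1, p.2) ≤ t}
      (fun p => lG s(p.1, p.2)) (Set.toFinite _) ⟨(a1, b1), h2.1, h2'⟩
    have := hmin (p', q') ⟨h4, by
      rintro a ⟨⟨b, hb, hb'⟩, c, hc, hc'⟩
      refine hcon a ⟨⟨b, hb, hb'.trans h4'⟩, c, hc, ?_⟩
      by_contra hle
      exact absurd (hmax' (a, c) ⟨hc, not_lt.1 hle⟩) (not_le.2 hc')⟩
    exact absurd (this.trans h4') (not_le.2 ht)
  have key : ∀ a, Straddles G lG t a → ∀ c, G.Adj a c → lG s(a, c) ≤ lG s(p, q) := by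
    rintro a ⟨⟨b, hb, hb'⟩, -⟩ c hc
    by_contra hlt
    exact hns a ⟨⟨b, hb, hb'.trans ht.le⟩, c, hc, not_le.1 hlt⟩
  have key2 : ∀ a, Straddles G lG t a → Straddles (below G lG (lG s(p, q))) lG t a := by
    intro a ha
    obtain ⟨⟨b, hb, hb'⟩, c, hc, hc'⟩ := id ha
    exact ⟨⟨b, ⟨hb, key a ha b hb⟩, hb'⟩, c, ⟨hc, key a ha c hc⟩, hc'⟩
  obtain ⟨a, b, hab, ha, hb⟩ := h t hstr
  exact ⟨a, b, ⟨hab, key a ha b hab⟩, key2 a ha, key2 b hb⟩

theorem Hyp.above {G : SimpleGraph W} {lG : Sym2 W → ℝ} (h : Hyp G lG) {τ : ℝ}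
    (hns : ∀ a, ¬ Straddles G lG τ a) : Hyp (above G lG τ) lG := by
  rintro t ⟨a0, ⟨b0, hb0, hb0'⟩, c0, hc0, hc0'⟩
  have ht : τ < t := hb0.2.trans_le hb0'
  have key : ∀ a, Straddles G lG t a → ∀ c, G.Adj a c → τ < lG s(a, c) := by
    rintro a ⟨-, b, hb, hb'⟩ c hc
    by_contra hle
    exact hns a ⟨⟨c, hc, not_lt.1 hle⟩, b, hb, ht.trans hb'⟩
  have key2 : ∀ a, Straddles G lG t a → Straddles (H41.above G lG τ) lG t a := by
    intro a ha
    obtain ⟨⟨b, hb, hb'⟩, c, hc, hc'⟩ := id ha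
    exact ⟨⟨b, ⟨hb, key a ha b hb⟩, hb'⟩, c, ⟨hc, key a ha c hc⟩, hc'⟩
  obtain ⟨a, b, hab, ha, hb⟩ := h t ⟨a0, ⟨b0, hb0.1, hb0'⟩, c0, hc0.1, hc0'⟩
  exact ⟨a, b, ⟨hab, key a ha b hab⟩, key2 a ha, key2 b hb⟩

theorem disj_of_nostr {G : SimpleGraph W} {lG : Sym2 W → ℝ} {τ : ℝ}
    (hns : ∀ a, ¬ Straddles G lG τ a) {a : W} (h1 : a ∈ (below G lG τ).support)
    (h2 : a ∈ (above G lG τ).support) : False := by
  obtain ⟨b, hb⟩ := h1
  obtain ⟨c, hc⟩ := h2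
  exact hns a ⟨⟨b, hb.1, hb.2⟩, c, hc.1, hc.2⟩

open Classical in
theorem IsCopy.combine {G G1 G2 : SimpleGraph W} {lG : Sym2 W → ℝ} {H : SimpleGraph V}
    {l : Sym2 V → ℝ} {f1 f2 : W → V} (hle : G ≤ G1 ⊔ G2) (h1 : IsCopy f1 G1 lG H l)
    (h2 : IsCopy f2 G2 lG H l) (hdisj : ∀ a ∈ G1.support, a ∉ G2.support)
    (himg : ∀ a ∈ G1.support, ∀ b ∈ G2.support, f1 a ≠ f2 b)
    (hlab : ∀ a b c d, G1.Adj a b → G2.Adj c d → l s(f1 a, f1 b) < l s(f2 c, f2 d))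
    (hG : ∀ a b c d, G1.Adj a b → G2.Adj c d → lG s(a, b) < lG s(c, d)) :
    IsCopy (fun a => if a ∈ G1.support then f1 a else f2 a) G lG H l := by
  have e1 : ∀ a b, G1.Adj a b → (if a ∈ G1.support then f1 a else f2 a) = f1 a :=
    fun a b h => if_pos ⟨b, h⟩
  have e2 : ∀ a b, G2.Adj a b → (if a ∈ G1.support then f1 a else f2 a) = f2 a :=
    fun a b h => if_neg fun h' => hdisj a h' ⟨b, h⟩
  refine ⟨?_, ?_, ?_⟩
  · rintro a ⟨a', ha⟩ b ⟨b', hb⟩ hab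
    rcases hle ha with ha | ha <;> rcases hle hb with hb | hb
    · simp only [e1 a a' ha, e1 b b' hb] at hab
      exact h1.inj ⟨a', ha⟩ ⟨b', hb⟩ hab
    · simp only [e1 a a' ha, e2 b b' hb] at hab
      exact absurd hab (himg a ⟨a', ha⟩ b ⟨b', hb⟩)
    · simp only [e2 a a' ha, e1 b b' hb] at hab
      exact absurd hab.symm (himg b ⟨b', hb⟩ a ⟨a', ha⟩)
    · simp only [e2 a a' ha, e2 b b' hb] at hab
      exact h2.inj ⟨a', ha⟩ ⟨b', hb⟩ hab
  · intro a b hab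
    rcases hle hab with h | h
    · simp only [e1 a b h, e1 b a h.symm]; exact h1.adj a b h
    · simp only [e2 a b h, e2 b a h.symm]; exact h2.adj a b h
  · intro a b c d hab hcd hl
    rcases hle hab with h | h <;> rcases hle hcd with h' | h'
    · simp only [e1 a b h, e1 b a h.symm, e1 c d h', e1 d c h'.symm]
      exact h1.ord a b c d h h' hl
    · simp only [e1 a b h, e1 b a h.symm, e2 c d h', e2 d c h'.symm]
      exact hlab a b c d h h'
    · exact absurd hl (not_lt.2 (hG c d a b h' h).le)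
    · simp only [e2 a b h, e2 b a h.symm, e2 c d h', e2 d c h'.symm]
      exact h2.ord a b c d h h' hl

/-- Two vertex-disjoint blocks glued along the top edge of the first and the bottom edge of the
second. -/
theorem exists_glue [Finite W] {B1 B2 : SimpleGraph W} {lG : Sym2 W → ℝ}
    (hv : EdgeOrdered (B1 ⊔ B2) lG) (hne1 : ∃ a b, B1.Adj a b) (hne2 : ∃ a b, B2.Adj a b)
    (hdisj : ∀ a ∈ B1.support, a ∉ B2.support)
    (hG : ∀ a b c d, B1.Adj a b → B2.Adj c d → lG s(a, b) < lG s(c, d)) :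
    ∃ (K : SimpleGraph W) (lK : Sym2 W → ℝ) (σ : W → W) (c d : W), EdgeOrdered K lK ∧
      ¬ WC K lK (B1 ⊔ B2) lG ∧ IsCopy id B1 lG K lK ∧ IsCopy σ B2 lG K lK ∧ K.Adj c d ∧
      (∀ a b, B1.Adj a b → lK s(a, b) ≤ lK s(c, d)) ∧
      ∀ a b, B2.Adj a b → lK s(c, d) ≤ lK s(σ a, σ b) := by
  classical
  obtain ⟨a1, b1, h1⟩ := hne1
  obtain ⟨a2, b2, h2⟩ := hne2
  obtain ⟨⟨c, d⟩, hcd, hmax⟩ := Set.exists_max_image {p : W × W | B1.Adj p.1 p.2}
    (fun p => lG s(p.1, p.2)) (Set.toFinite _) ⟨(a1, b1), h1⟩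
  obtain ⟨⟨p, q⟩, hpq, hmin⟩ := Set.exists_min_image {p : W × W | B2.Adj p.1 p.2}
    (fun p => lG s(p.1, p.2)) (Set.toFinite _) ⟨(a2, b2), h2⟩
  have hcd : B1.Adj c d := hcd
  have hpq : B2.Adj p q := hpq
  simp only at hmax hmin
  have hne : ∀ a ∈ B1.support, ∀ b ∈ B2.support, a ≠ b := fun a ha b hb h => hdisj a ha (h ▸ hb)
  have hcp : c ≠ p := hne c ⟨d, hcd⟩ p ⟨q, hpq⟩
  have hcq : c ≠ q := hne c ⟨d, hcd⟩ q ⟨p, hpq.symm⟩
  have hdp : d ≠ p := hne d ⟨c, hcd.symm⟩ p ⟨q, hpq⟩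
  have hdq : d ≠ q := hne d ⟨c, hcd.symm⟩ q ⟨p, hpq.symm⟩
  have hcd' := hcd.ne
  have hpq' := hpq.ne
  let σ : W → W := fun a => if a = c then p else if a = p then c else if a = d then q else
    if a = q then d else a
  have σc : σ c = p := by simp [σ]
  have σp : σ p = c := by simp [σ, hcp.symm]
  have σd : σ d = q := by simp [σ, hcd'.symm, hdp]
  have σq : σ q = d := by simp [σ, hcq.symm, hpq'.symm, hdq.symm]
  have σo : ∀ a, a ≠ c → a ≠ p → a ≠ d → a ≠ q → σ a = a := by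
    intro a h1 h2 h3 h4; simp [σ, h1, h2, h3, h4]
  have σσ : ∀ a, σ (σ a) = a := by
    intro a
    by_cases h1 : a = c
    · rw [h1, σc, σp]
    by_cases h2 : a = p
    · rw [h2, σp, σc]
    by_cases h3 : a = d
    · rw [h3, σd, σq]
    by_cases h4 : a = q
    · rw [h4, σq, σd]
    rw [σo a h1 h2 h3 h4, σo a h1 h2 h3 h4]
  have σinj : Function.Injective σ := fun a b h => by rw [← σσ a, h, σσ]
  let K : SimpleGraph W := B1 ⊔ B2.comap σ
  let j : Sym2 W → Sym2 W := fun e => if e ∈ B1.edgeSet then e else e.map σ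
  have j1 : ∀ a b, B1.Adj a b → j s(a, b) = s(a, b) := fun a b h => if_pos h
  have j2 : ∀ a b, ¬ B1.Adj a b → j s(a, b) = s(σ a, σ b) := fun a b h => if_neg h
  have hj : ∀ a b, K.Adj a b → j s(a, b) ∈ (B1 ⊔ B2).edgeSet \ {s(p, q)} := by
    intro a b hab
    by_cases h : B1.Adj a b
    · rw [j1 a b h]
      refine ⟨Or.inl h, fun h' => ?_⟩
      rcases Sym2.eq_iff.1 h' with ⟨rfl, -⟩ | ⟨rfl, -⟩
      · exact hdisj _ ⟨_, h⟩ ⟨_, hpq⟩
      · exact hdisj _ ⟨_, h⟩ ⟨_, hpq.symm⟩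
    · rw [j2 a b h]
      refine ⟨Or.inr (hab.resolve_left h), fun h' => h ?_⟩
      rcases Sym2.eq_iff.1 h' with ⟨e1, e2⟩ | ⟨e1, e2⟩
      · rw [← σσ a, ← σσ b, e1, e2, σp, σq]; exact hcd
      · rw [← σσ a, ← σσ b, e1, e2, σp, σq]; exact hcd.symm
  have jinj : ∀ a b a' b', K.Adj a b → K.Adj a' b' → j s(a, b) = j s(a', b') →
      s(a, b) = s(a', b') := by
    intro a b a' b' hab hab' h
    by_cases e : B1.Adj a b <;> by_cases e' : B1.Adj a' b'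
    · rwa [j1 a b e, j1 a' b' e'] at h
    · rw [j1 a b e, j2 a' b' e'] at h
      have h3 : B2.Adj (σ a') (σ b') := hab'.resolve_left e'
      have h4 : s(a, b) ∈ B2.edgeSet := h ▸ h3
      exact (hdisj a ⟨b, e⟩ ⟨b, h4⟩).elim
    · rw [j2 a b e, j1 a' b' e'] at h
      have h3 : B2.Adj (σ a) (σ b) := hab.resolve_left e
      have h4 : s(a', b') ∈ B2.edgeSet := h ▸ h3
      exact (hdisj a' ⟨b', e'⟩ ⟨b', h4⟩).elim
    · rw [j2 a b e, j2 a' b' e'] at h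
      apply Sym2.map.injective σinj
      simpa using h
  have hB2 : ∀ a b, B2.Adj a b → (s(a, b) = s(p, q) ∧ j s(σ a, σ b) = s(c, d)) ∨
      j s(σ a, σ b) = s(a, b) := by
    intro a b hab
    by_cases h : B1.Adj (σ a) (σ b)
    · left
      have key : ∀ a a' b', B2.Adj a a' → B1.Adj (σ a) b' → a = p ∨ a = q := by
        intro a a' b' h1 h2
        by_contra hcon
        push Not at hcon
        rw [σo a (hne c ⟨d, hcd⟩ a ⟨a', h1⟩).symm hcon.1 (hne d ⟨c, hcd.symm⟩ a ⟨a', h1⟩).symm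
          hcon.2] at h2
        exact hdisj a ⟨b', h2⟩ ⟨a', h1⟩
      have hab' := hab.ne
      rw [j1 _ _ h]
      rcases key a b _ hab h with rfl | rfl <;> rcases key b _ _ hab.symm h.symm with rfl | rfl
      · exact absurd rfl hab'
      · exact ⟨rfl, by rw [σp, σq]⟩
      · exact ⟨Sym2.eq_swap, by rw [σp, σq, Sym2.eq_swap]⟩
      · exact absurd rfl hab'
    · right
      rw [j2 _ _ h, σσ, σσ]
  refine ⟨K, lG ∘ j, σ, c, d, ?_, ?_, ?_, ?_, Or.inl hcd, ?_, ?_⟩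
  · apply edgeOrdered_of
    intro a b a' b' hab hab' h
    exact jinj a b a' b' hab hab' (hv (hj a b hab).1 (hj a' b' hab').1 h)
  · rintro ⟨f, hf⟩
    have h3 : (B1 ⊔ B2).edgeSet.ncard ≤ ((B1 ⊔ B2).edgeSet \ {s(p, q)}).ncard := by
      apply Set.ncard_le_ncard_of_injOn (fun e => j (e.map f)) _ _ (Set.toFinite _)
      · intro e he
        induction e using Sym2.ind with
        | _ a b => exact hj _ _ (hf.adj a b he)
      · intro e he e' he' h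
        induction e using Sym2.ind with
        | _ a b =>
        induction e' using Sym2.ind with
        | _ a' b' =>
        have he : (B1 ⊔ B2).Adj a b := he
        have he' : (B1 ⊔ B2).Adj a' b' := he'
        rcases Sym2.eq_iff.1 (jinj _ _ _ _ (hf.adj a b he) (hf.adj a' b' he') h) with
          ⟨e1, e2⟩ | ⟨e1, e2⟩
        · rw [hf.inj ⟨b, he⟩ ⟨b', he'⟩ e1, hf.inj ⟨a, he.symm⟩ ⟨a', he'.symm⟩ e2]
        · rw [hf.inj ⟨b, he⟩ ⟨a', he'.symm⟩ e1, hf.inj ⟨a, he.symm⟩ ⟨b', he'⟩ e2, Sym2.eq_swap]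
    have h4 : s(p, q) ∈ (B1 ⊔ B2).edgeSet := Or.inr hpq
    exact absurd h3 (not_le.2 (Set.ncard_sdiff_singleton_lt_of_mem h4 (Set.toFinite _)))
  · refine ⟨Function.injective_id.injOn, fun a b h => Or.inl h, fun a b a' b' h h' hl => ?_⟩
    simpa [j1 a b h, j1 a' b' h'] using hl
  · refine ⟨σinj.injOn, fun a b h => Or.inr (by simpa [σσ] using h), fun a b a' b' h h' hl => ?_⟩
    simp only [Function.comp]
    rcases hB2 a' b' h' with ⟨e1, -⟩ | e1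
    · rw [e1] at hl
      exact absurd hl (not_lt.2 (hmin (a, b) h))
    · rw [e1]
      rcases hB2 a b h with ⟨-, e2⟩ | e2
      · rw [e2]; exact hG _ _ _ _ hcd h'
      · rw [e2]; exact hl
  · intro a b h
    simp only [Function.comp, j1 a b h, j1 c d hcd]
    exact hmax (a, b) h
  · intro a b h
    simp only [Function.comp, j1 c d hcd]
    rcases hB2 a b h with ⟨-, e2⟩ | e2
    · rw [e2]
    · rw [e2]; exact (hG _ _ _ _ hcd h).le

end Pool.Agent.MP_9b0ed7_co.H41
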