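import Mathlib
import Pool.Agent.MP_9b0ed7_co.H41.Glue

set_option autoImplicit false

namespace Pool.Agent.MP_9b0ed7_co.H41

open SimpleGraph

variable {V W L : Type}

/-- A graph on the hubs only. -/
noncomputable def hubStr [Finite W] (L : Type) (K : SimpleGraph W) (lK : Sym2 W → ℝ)
    (hv : EdgeOrdered K lK) : Str L where
  C := W
  fin := inferInstance
  H := pushG Sum.inl K
  l := pushL Sum.inl lK
  valid := edgeOrdered_push Sum.inl_injective hv
  indep := by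
    rintro u v ⟨-, a, b, -, h, -⟩
    cases h

/-- The part of `H` on the vertex set `Z` with labels satisfying `P`. -/
def restr (H : SimpleGraph V) (lH : Sym2 V → ℝ) (Z : Set V) (P : ℝ → Prop) : SimpleGraph V where
  Adj a b := H.Adj a b ∧ P (lH s(a, b)) ∧ a ∈ Z ∧ b ∈ Z
  symm := ⟨fun _ _ h => ⟨h.1.symm, by rw [Sym2.eq_swap]; exact h.2.1, h.2.2.2, h.2.2.1⟩⟩
  loopless := ⟨fun _ h => H.irrefl h.1⟩

theorem IsCopy.of_restr {f : W → V} {G : SimpleGraph W} {lG : Sym2 W → ℝ} {H : SimpleGraph V}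
    {lH : Sym2 V → ℝ} {Z : Set V} {P : ℝ → Prop} (h : IsCopy f G lG (restr H lH Z P) lH) :
    IsCopy f G lG H lH := ⟨h.inj, fun a b hab => (h.adj a b hab).1, h.ord⟩

def GoodP (G : SimpleGraph W) (lG : Sym2 W → ℝ) (τ : ℝ) : Prop :=
  ∃ c D : ℕ, ∀ N k : ℕ, N ≤ 2 ^ k → ∃ A : Str (Fin N), Nat.card A.C ≤ c * (k + 1) ∧
    Kills G lG A (D * k * N) ∧ ((∃ a b, (above G lG τ).Adj a b) →
      ∃ g : W → A.C, IsCopy (Sum.inl ∘ g) (above G lG τ) lG A.H A.l)

theorem good_base [Finite W] {G : SimpleGraph W} {lG : Sym2 W → ℝ} (hG : EdgeOrdered G lG)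
    {τ : ℝ} (hτ : IsFirst G lG τ) (hno : ¬ ∃ a b, (above G lG τ).Adj a b) : GoodP G lG τ := by
  have hb : below G lG τ = G := by
    refine le_antisymm (below_le _ _ _) fun a b h => ?_
    rcases le_below_sup_above G lG τ h with h' | h'
    · exact h'
    · exact absurd ⟨a, b, h'⟩ hno
  have hcf := hτ.cf
  have hne := hτ.ne
  rw [hb] at hcf hne
  obtain ⟨c, D, h⟩ := zone hG hcf hne
  refine ⟨c, D, fun N k hN => ?_⟩
  obtain ⟨A, h1, h2⟩ := h N k hN
  exact ⟨A, by nlinarith, h2, fun h => absurd h hno⟩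

theorem good_step [Finite W] {G : SimpleGraph W} {lG : Sym2 W → ℝ} (hG : EdgeOrdered G lG)
    {τ τ' : ℝ} (hτ : IsFirst G lG τ) (hτ' : IsFirst (above G lG τ) lG τ')
    (ih : GoodP (above G lG τ) lG τ') : GoodP G lG τ := by
  classical
  set B1 := below G lG τ with hB1
  set G' := above G lG τ with hG'
  set B2 := below G' lG τ' with hB2
  set G'' := above G' lG τ' with hG''
  have hB2G' : B2 ≤ G' := below_le _ _ _
  have hG'G : G' ≤ G := above_le _ _ _
  have hB1G : B1 ≤ G := below_le _ _ _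
  have hd1 : ∀ a ∈ B1.support, a ∉ G'.support := fun a h1 h2 => disj_of_nostr hτ.nostr h1 h2
  have hd2 : ∀ a ∈ B2.support, a ∉ G''.support := fun a h1 h2 => disj_of_nostr hτ'.nostr h1 h2
  have hl1 : ∀ a b c d, B1.Adj a b → G'.Adj c d → lG s(a, b) < lG s(c, d) :=
    fun a b c d h1 h2 => h1.2.trans_lt h2.2
  have hl2 : ∀ a b c d, B2.Adj a b → G''.Adj c d → lG s(a, b) < lG s(c, d) :=
    fun a b c d h1 h2 => h1.2.trans_lt h2.2
  have hne : ∃ a b, G.Adj a b := let ⟨a, b, h⟩ := hτ.ne; ⟨a, b, h.1⟩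
  have hne' : ∃ a b, G'.Adj a b := let ⟨a, b, h⟩ := hτ'.ne; ⟨a, b, h.1⟩
  obtain ⟨K, lK, σ, c, d, hK, hKf, hK1, hK2, hcd, hKle, hKge⟩ := exists_glue (B1 := B1) (B2 := B2)
    (lG := lG) (hG.mono (sup_le hB1G (hB2G'.trans hG'G))) hτ.ne hτ'.ne
    (fun a h1 h2 => hd1 a h1 (support_mono hB2G' h2))
    (fun a b c d h1 h2 => hl1 a b c d h1 (hB2G' h2))
  obtain ⟨c1, D1, h1⟩ := zone (hG.mono hB1G) hτ.cf hτ.ne
  obtain ⟨c2, D2, h2⟩ := ih
  refine ⟨c1 + Nat.card W + c2, D1 + D2, fun N k hN => ?_⟩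
  obtain ⟨Z, hZ1, hZ2, hZ3⟩ := h1 N k hN
  obtain ⟨A, hA1, ⟨hA2, hA3⟩, hA4⟩ := h2 N k hN
  let KS : Str (Fin N) := hubStr (Fin N) K lK hK
  have eK : Emb Sum.inl K lK KS.H KS.l := emb_push Sum.inl_injective K lK
  let U : Str (Fin N) := KS.sum A
  have eKU : Emb (i1 KS A ∘ Sum.inl) K lK U.H U.l := eK.comp (emb_i1 KS A)
  -- a hub copy of `G''` in the upper part
  obtain ⟨g0, hg0, hg0', hg0''⟩ : ∃ g0 : W → KS.C ⊕ A.C,
      IsCopy (Sum.inl ∘ g0) G'' lG U.H U.l ∧ (∀ a ∈ G''.support, ∃ x, g0 a = .inr x) ∧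
      ∀ a b, G''.Adj a b → InHi KS A (.inl (g0 a)) (.inl (g0 b)) := by
    by_cases hex : ∃ a b, G''.Adj a b
    · obtain ⟨g, hg⟩ := hA4 hex
      exact ⟨Sum.inr ∘ g, hg.emb (emb_i2 KS A), fun a _ => ⟨g a, rfl⟩,
        fun a b h => ⟨_, _, hg.adj a b h, rfl, rfl⟩⟩
    · push Not at hex
      exact ⟨fun a => .inl a, ⟨fun a ⟨b, h⟩ => absurd h (hex a b), fun a b h => absurd h (hex a b),
        fun a b _ _ h => absurd h (hex a b)⟩, fun a ⟨b, h⟩ => absurd h (hex a b),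
        fun a b h => absurd h (hex a b)⟩
  have hhi : ∀ a b u v, K.Adj a b → InHi KS A u v →
      U.l s(i1 KS A (.inl a), i1 KS A (.inl b)) < U.l s(u, v) := by
    rintro a b _ _ h ⟨α, β, h', rfl, rfl⟩
    exact sum_sep (eK.adj a b h) h'
  have hle : ∀ a b a' b', K.Adj a b → K.Adj a' b' → lK s(a, b) ≤ lK s(a', b') →
      U.l s(i1 KS A (.inl a), i1 KS A (.inl b)) ≤ U.l s(i1 KS A (.inl a'), i1 KS A (.inl b')) := by
    intro a b a' b' h h' hl
    by_contra hcon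
    exact absurd (eKU.refl_ord hK h' h (not_le.1 hcon)) (not_lt.2 hl)
  let g2 : W → KS.C ⊕ A.C := fun a => if a ∈ B2.support then .inl (σ a) else g0 a
  have hg2 : IsCopy (Sum.inl ∘ g2) G' lG U.H U.l := by
    have := IsCopy.combine (le_below_sup_above G' lG τ') (hK2.emb eKU) hg0 hd2
      (by
        intro a _ b hb h
        obtain ⟨x, hx⟩ := hg0' b hb
        have h' : (Sum.inl (Sum.inl (σ a)) : (KS.C ⊕ A.C) ⊕ Fin N) = Sum.inl (g0 b) := h
        rw [hx] at h'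
        cases h')
      (fun a b a' b' h h' => hhi _ _ _ _ (hK2.adj a b h) (hg0'' a' b' h')) hl2
    have e : (Sum.inl ∘ g2 : W → U.C ⊕ Fin N) = fun a => if a ∈ (below G' lG τ').support then
        ((i1 KS A ∘ Sum.inl) ∘ σ) a else (Sum.inl ∘ g0) a := by
      funext a
      by_cases h : a ∈ B2.support
      · have e1 : g2 a = .inl (σ a) := if_pos h
        rw [if_pos h]; exact congrArg Sum.inl e1
      · have e1 : g2 a = g0 a := if_neg h
        rw [if_neg h]; exact congrArg Sum.inl e1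
    exact (congrArg (fun f => IsCopy f G' lG U.H U.l) e).mpr this
  have hg2ge : ∀ a b, G'.Adj a b →
      U.l s(i1 KS A (.inl c), i1 KS A (.inl d)) ≤ U.l s(.inl (g2 a), .inl (g2 b)) := by
    intro a b h
    rcases le_below_sup_above G' lG τ' h with h' | h'
    · have e1 : g2 a = .inl (σ a) := if_pos ⟨b, h'⟩
      have e2 : g2 b = .inl (σ b) := if_pos ⟨a, h'.symm⟩
      rw [e1, e2]
      exact hle _ _ _ _ hcd (hK2.adj a b h') (hKge a b h')
    · have e1 : g2 a = g0 a := if_neg fun h'' => hd2 a h'' ⟨b, h'⟩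
      have e2 : g2 b = g0 b := if_neg fun h'' => hd2 b h'' ⟨a, h'.symm⟩
      rw [e1, e2]
      exact (hhi _ _ _ _ hcd (hg0'' a b h')).le
  refine ⟨Z.sum U, ?_, ⟨?_, ?_⟩, fun _ => ⟨Sum.inr ∘ g2, hg2.emb (emb_i2 Z U)⟩⟩
  · rw [sum_card, sum_card]
    have : Nat.card KS.C = Nat.card W := rfl
    nlinarith
  · -- freeness
    rintro ⟨f, hf⟩
    rcases (hf.mono hB1G).split (hG.mono hB1G) hτ.cf with h | h
    · exact hZ2 (WC.pull (hf.mono hB1G) (emb_i1 Z U) Z.valid hτ.ne h)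
    have hall : ∀ a b, G.Adj a b → InHi Z U (f a) (f b) := by
      intro a b hab
      rcases le_below_sup_above G lG τ hab with h' | h'
      · exact h a b h'
      · obtain ⟨a0, b0, h0⟩ := hτ.ne
        exact hf.hi_of_le h0.1 hab (hl1 _ _ _ _ h0 h') (h a0 b0 h0)
    obtain ⟨f', hf'⟩ := WC.pull hf (emb_i2 Z U) U.valid hne hall
    rcases (hf'.mono (hB2G'.trans hG'G)).split (hG.mono (hB2G'.trans hG'G)) hτ'.cf with h | h
    · have hlo : ∀ a b, (B1 ⊔ B2).Adj a b → InLo KS A (f' a) (f' b) := by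
        rintro a b (hab | hab)
        · refine (sum_adj (hf'.adj a b hab.1)).resolve_right fun hi => ?_
          obtain ⟨a0, b0, h0⟩ := hτ'.ne
          have e1 := hf'.hi_of_le hab.1 h0.1.1 (hl1 _ _ _ _ hab h0.1) hi
          have e2 := h a0 b0 h0
          have hne0 : f' a0 ≠ f' b0 := (hf'.adj a0 b0 h0.1.1).ne
          exact not_both KS A ⟨hne0, e2⟩ ⟨hne0, e1⟩
        · exact h a b hab
      have hne1 : ∃ a b, (B1 ⊔ B2).Adj a b := let ⟨a, b, h⟩ := hτ.ne; ⟨a, b, Or.inl h⟩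
      exact hKf (wc_push Sum.inl_injective hK hne1 (WC.pull
        (hf'.mono (sup_le hB1G (hB2G'.trans hG'G))) (emb_i1 KS A) KS.valid hne1 hlo))
    · have hall' : ∀ a b, G'.Adj a b → InHi KS A (f' a) (f' b) := by
        intro a b hab
        rcases le_below_sup_above G' lG τ' hab with h' | h'
        · exact h a b h'
        · obtain ⟨a0, b0, h0⟩ := hτ'.ne
          exact hf'.hi_of_le h0.1.1 hab.1 (hl2 _ _ _ _ h0 h') (h a0 b0 h0)
      exact hA2 (WC.pull (hf'.mono hG'G) (emb_i2 KS A) A.valid hne' hall')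
  · -- counting
    intro V H lH φ hH hf hφ
    have eZ := (emb_i1 Z U).comp hφ
    have eU := (emb_i2 Z U).comp hφ
    have eA := (emb_i2 KS A).comp eU
    have eKH := eKU.comp eU
    set ψ := φ ∘ i2 Z U with hψ
    let g : ℝ := lH s(ψ (i1 KS A (.inl c)), ψ (i1 KS A (.inl d)))
    have hcdU : U.H.Adj (i1 KS A (.inl c)) (i1 KS A (.inl d)) := eKU.adj c d hcd
    have hUle : ∀ α β γ δ, U.H.Adj α β → U.H.Adj γ δ → U.l s(α, β) ≤ U.l s(γ, δ) →
        lH s(ψ α, ψ β) ≤ lH s(ψ γ, ψ δ) := by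
      intro α β γ δ h h' hl
      by_contra hcon
      exact absurd (eU.refl_ord U.valid h' h (not_le.1 hcon)) (not_lt.2 hl)
    have n1 := hZ3 V (restr H lH (Set.range (φ ∘ i1 Z U)) (· < g)) lH (φ ∘ i1 Z U)
      (hH.mono fun _ _ h => h.1) (by
        rintro ⟨f1, hf1⟩
        refine hf ⟨_, IsCopy.combine (le_below_sup_above G lG τ) hf1.of_restr (hg2.emb eU) hd1
          ?_ ?_ hl1⟩
        · rintro a ⟨a', ha⟩ b _ hab
          obtain ⟨α, hα⟩ := (hf1.adj a a' ha).2.2.1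
          rw [← hα] at hab
          obtain ⟨u, -, hu⟩ := i1_eq_i2 (hφ.inj hab)
          cases hu
        · intro a b a' b' h h'
          exact (hf1.adj a b h).2.1.trans_le
            (hUle _ _ _ _ hcdU (hg2.adj a' b' h') (hg2ge a' b' h')))
      ⟨eZ.inj, fun α β h => ⟨eZ.adj α β h, hφ.ord _ _ _ _ ((emb_i1 Z U).adj _ _ h)
        ((emb_i2 Z U).adj _ _ hcdU) (sum_sep h hcdU), ⟨α, rfl⟩, ⟨β, rfl⟩⟩, eZ.ord⟩
    have n2 := hA3 V (restr H lH (Set.range (ψ ∘ i2 KS A)) (g < ·)) lH (ψ ∘ i2 KS A)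
      (hH.mono fun _ _ h => h.1) (by
        rintro ⟨f2, hf2⟩
        refine hf ⟨_, IsCopy.combine (le_below_sup_above G lG τ) (hK1.emb eKH) hf2.of_restr hd1
          ?_ ?_ hl1⟩
        · rintro a _ b ⟨b', hb⟩ hab
          obtain ⟨α, hα⟩ := (hf2.adj b b' hb).2.2.1
          rw [← hα] at hab
          obtain ⟨u, hu, -⟩ := i1_eq_i2 (eU.inj hab)
          cases hu
        · intro a b a' b' h h'
          refine lt_of_le_of_lt ?_ (hf2.adj a' b' h').2.1
          exact hUle _ _ _ _ (eKU.adj _ _ (hK1.adj a b h)) hcdU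
            (hle _ _ _ _ (hK1.adj a b h) hcd (hKle a b h)))
      ⟨eA.inj, fun α β h => ⟨eA.adj α β h, eU.ord _ _ _ _ hcdU ((emb_i2 KS A).adj _ _ h)
        (sum_sep (eK.adj c d hcd) h), ⟨α, rfl⟩, ⟨β, rfl⟩⟩, eA.ord⟩
    refine le_trans (Set.ncard_le_ncard ?_ (Set.toFinite _))
      ((Set.ncard_union_le _ _).trans ((add_le_add n1 n2).trans (le_of_eq (by ring))))
    intro p hp
    rcases lt_trichotomy (lH s(φ (.inr p.1), φ (.inr p.2))) g with h | h | h
    · exact Or.inl ⟨hp, h, ⟨.inr p.1, rfl⟩, ⟨.inr p.2, rfl⟩⟩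
    · exfalso
      rcases Sym2.eq_iff.1 (hH.eq_of hp (eU.adj _ _ hcdU) h) with ⟨h', -⟩ | ⟨h', -⟩
      · cases hφ.inj h'
      · cases hφ.inj h'
    · exact Or.inr ⟨hp, h, ⟨.inr p.1, rfl⟩, ⟨.inr p.2, rfl⟩⟩

theorem good_all [Finite W] (lG : Sym2 W → ℝ) (G : SimpleGraph W) :
    EdgeOrdered G lG → Hyp G lG → ∀ τ, IsFirst G lG τ → GoodP G lG τ := by
  classical
  have := Fintype.ofFinite W
  induction G using (wellFounded_lt (α := SimpleGraph W)).induction with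
  | _ G ih =>
  intro hG hH τ hτ
  by_cases hno : ∃ a b, (above G lG τ).Adj a b
  · obtain ⟨τ', hτ'⟩ := exists_first (hH.above hτ.nostr) hno
    refine good_step hG hτ hτ' (ih _ ?_ (hG.mono (above_le _ _ _)) (hH.above hτ.nostr) τ' hτ')
    refine lt_of_le_of_ne (above_le _ _ _) fun h => ?_
    obtain ⟨a, b, hab⟩ := hτ.ne
    have : (above G lG τ).Adj a b := by rw [h]; exact hab.1
    exact absurd this.2 (not_lt.2 hab.2)
  · exact good_base hG hτ hno

/-- From a killing structure to a sparse saturated graph. -/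
theorem sat_of_kills [Fintype W] {G : SimpleGraph W} {lG : Sym2 W → ℝ}
    (hne : ∃ a b, G.Adj a b) {n h M : ℕ} (hn : Fintype.card W ≤ n)
    (A : Str (Fin (n - h))) (hA : Nat.card A.C ≤ h) (hK : Kills G lG A M) :
    ∃ (H : SimpleGraph (Fin n)) (lH : Sym2 (Fin n) → ℝ), EdgeOrdered H lH ∧
      Saturated H lH G lG ∧ H.edgeSet.ncard ≤ 2 * h * n + M := by
  classical
  have hpairs : ∀ H : SimpleGraph (Fin n),
      H.edgeSet.ncard ≤ {p : Fin n × Fin n | H.Adj p.1 p.2}.ncard := by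
    intro H
    have : H.edgeSet = (fun p : Fin n × Fin n => s(p.1, p.2)) ''
        {p : Fin n × Fin n | H.Adj p.1 p.2} := by
      ext e
      induction e using Sym2.ind with
      | _ a b =>
      refine ⟨fun h => ⟨(a, b), h, rfl⟩, ?_⟩
      rintro ⟨p, hp, h⟩
      have h' : s(p.1, p.2) ∈ H.edgeSet := hp
      exact h ▸ h'
    rw [this]
    exact Set.ncard_image_le (Set.toFinite _)
  by_cases hh : n ≤ h
  · obtain ⟨H, lH, h1, h2, -, -⟩ := exists_saturated (V := Fin n) (G := G) (lG := lG)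
      (by simpa using hn) (H0 := ⊥) (l0 := 0) (edgeOrdered_of fun _ _ _ _ h => h.elim) (by
        rintro ⟨f, hf⟩
        obtain ⟨a, b, hab⟩ := hne
        exact hf.adj a b hab)
    refine ⟨H, lH, h1, h2, (hpairs H).trans ?_⟩
    have := Set.ncard_le_card {p : Fin n × Fin n | H.Adj p.1 p.2}
    simp only [Fintype.card_prod, Nat.card_eq_fintype_card, Fintype.card_fin] at this
    nlinarith
  push Not at hh
  have := Fintype.ofFinite A.C
  obtain ⟨φ⟩ : Nonempty (A.C ⊕ Fin (n - h) ↪ Fin n) := by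
    apply Function.Embedding.nonempty_of_card_le
    rw [Nat.card_eq_fintype_card] at hA
    simp only [Fintype.card_sum, Fintype.card_fin]
    omega
  obtain ⟨H, lH, h1, h2, h3, h4⟩ := exists_saturated (V := Fin n) (G := G) (lG := lG)
    (by simpa using hn) (edgeOrdered_push φ.injective A.valid)
    (fun h => hK.1 (wc_push φ.injective A.valid hne h))
  refine ⟨H, lH, h1, h2, (hpairs H).trans ?_⟩
  have e := hK.2 (Fin n) H lH _ h1 h3 ((emb_push φ.injective A.H A.l).comp h4)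
  let R : Set (Fin n) := (Set.range fun u => φ (.inr u))ᶜ
  have hR : R.ncard ≤ h := by
    have e1 := Set.ncard_add_ncard_compl (Set.range fun u => φ (.inr u))
    have e2 : (Set.range fun u : Fin (n - h) => φ (.inr u)).ncard = n - h := by
      exact (Set.ncard_range_of_injective (φ.injective.comp Sum.inr_injective)).trans (by simp)
    simp only [Nat.card_eq_fintype_card, Fintype.card_fin] at e1
    simp only [R]
    omega
  have hsub : {p : Fin n × Fin n | H.Adj p.1 p.2} ⊆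
      ({p | p.1 ∈ R} ∪ {p | p.2 ∈ R}) ∪
        (fun p => (φ (.inr p.1), φ (.inr p.2))) '' AdjSet A H (id ∘ φ) := by
    rintro ⟨u, v⟩ hp
    by_cases hu : u ∈ R
    · exact Or.inl (Or.inl hu)
    by_cases hv : v ∈ R
    · exact Or.inl (Or.inr hv)
    simp only [R, Set.mem_compl_iff, not_not] at hu hv
    obtain ⟨a, rfl⟩ := hu
    obtain ⟨b, rfl⟩ := hv
    exact Or.inr ⟨(a, b), hp, rfl⟩
  have c1 := ncard_le_of_fibers' {p : Fin n × Fin n | p.1 ∈ R} h (fun _ => hR)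
  have c2 := ncard_le_of_fibers {p : Fin n × Fin n | p.2 ∈ R} h (fun _ => hR)
  simp only [Nat.card_eq_fintype_card, Fintype.card_fin] at c1 c2
  have c3 := Set.ncard_image_le (f := fun p : Fin (n - h) × Fin (n - h) =>
    (φ (.inr p.1), φ (.inr p.2))) (Set.toFinite (AdjSet A H (id ∘ φ)))
  have c4 := Set.ncard_union_le {p : Fin n × Fin n | p.1 ∈ R} {p | p.2 ∈ R}
  have c5 := (Set.ncard_le_ncard hsub (Set.toFinite _)).trans (Set.ncard_union_le _ _)
  nlinarith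

theorem main_bound [Fintype W] {G : SimpleGraph W} {lG : Sym2 W → ℝ} (hG : EdgeOrdered G lG)
    (hne : ∃ a b, G.Adj a b) (hH : Hyp G lG) :
    ∃ (C : ℝ) (n0 : ℕ), ∀ n ≥ n0, ∃ (H : SimpleGraph (Fin n)) (lH : Sym2 (Fin n) → ℝ),
      EdgeOrdered H lH ∧ Saturated H lH G lG ∧ (H.edgeSet.ncard : ℝ) ≤ C * n * Real.log n := by
  obtain ⟨τ, hτ⟩ := exists_first hH hne
  obtain ⟨c, D, h⟩ := good_all lG G hG hH τ hτ
  refine ⟨(6 * c + 2 * D) / Real.log 2, max 2 (Fintype.card W), fun n hn => ?_⟩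
  have hn2 : 2 ≤ n := le_trans (le_max_left _ _) hn
  set j := Nat.log 2 n with hj
  have hj1 : 1 ≤ j := Nat.log_pos (by norm_num) hn2
  have hlt : n < 2 ^ (j + 1) := Nat.lt_pow_succ_log_self (by norm_num) n
  obtain ⟨A, h1, h2, -⟩ := h (n - c * (j + 1 + 1)) (j + 1) (by omega)
  obtain ⟨H, lH, h3, h4, h5⟩ := sat_of_kills hne (le_trans (le_max_right _ _) hn) A h1 h2
  refine ⟨H, lH, h3, h4, ?_⟩
  have h6 : H.edgeSet.ncard ≤ (6 * c + 2 * D) * n * j := by
    have e1 : D * (j + 1) * (n - c * (j + 1 + 1)) ≤ D * (2 * j) * n :=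
      Nat.mul_le_mul (Nat.mul_le_mul_left _ (by omega)) (Nat.sub_le _ _)
    have e2 : 2 * (c * (j + 1 + 1)) * n ≤ 2 * (c * (3 * j)) * n :=
      Nat.mul_le_mul_right _ (Nat.mul_le_mul_left _ (Nat.mul_le_mul_left _ (by omega)))
    nlinarith
  have hl2 : 0 < Real.log 2 := Real.log_pos (by norm_num)
  have h7 : (j : ℝ) * Real.log 2 ≤ Real.log n := by
    rw [← Real.log_pow]
    apply Real.log_le_log (by positivity)
    exact_mod_cast Nat.pow_log_le_self 2 (by omega)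
  have h8 : (j : ℝ) ≤ Real.log n / Real.log 2 := by rwa [le_div_iff₀ hl2]
  calc (H.edgeSet.ncard : ℝ) ≤ (6 * c + 2 * D) * n * j := by exact_mod_cast h6
    _ ≤ (6 * c + 2 * D) * n * (Real.log n / Real.log 2) := by gcongr
    _ = _ := by ring

end Pool.Agent.MP_9b0ed7_co.H41
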