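import Mathlib
import Pool.Agent.MP_9b0ed7_co.H41.Main

set_option autoImplicit false

namespace Pool.Agent.MP_9b0ed7_co.H41

open SimpleGraph

variable {V W : Type}

/-- A clique of `d` hubs joined to an independent set. -/
def joinG (d N : ℕ) : SimpleGraph (Fin d ⊕ Fin N) where
  Adj α β := α ≠ β ∧ (α.isLeft ∨ β.isLeft)
  symm := ⟨fun _ _ h => ⟨h.1.symm, h.2.symm⟩⟩
  loopless := ⟨fun _ h => h.1 rfl⟩

theorem linear_bound [Fintype W] {G : SimpleGraph W} {lG : Sym2 W → ℝ}
    (hne : ∃ a b, G.Adj a b) {t : ℕ}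
    (ht : ∀ l : Sym2 (Fin t) → ℝ, EdgeOrdered ⊤ l → Contains ⊤ l G lG) :
    ∃ (C : ℝ) (n0 : ℕ), ∀ n ≥ n0, ∃ (H : SimpleGraph (Fin n)) (lH : Sym2 (Fin n) → ℝ),
      EdgeOrdered H lH ∧ Saturated H lH G lG ∧ (H.edgeSet.ncard : ℝ) ≤ C * n := by
  classical
  let P : ℕ → Prop := fun d => ∀ N, ∃ l, EdgeOrdered (joinG d N) l ∧ ¬ WC (joinG d N) l G lG
  have hP0 : P 0 := by
    intro N
    have hno : ∀ α β, ¬ (joinG 0 N).Adj α β := by
      rintro (α | α) (β | β) h
      · exact α.elim0
      · exact α.elim0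
      · exact β.elim0
      · simpa using h.2
    refine ⟨0, edgeOrdered_of fun a b _ _ h => absurd h (hno a b), ?_⟩
    rintro ⟨f, hf⟩
    obtain ⟨a, b, hab⟩ := hne
    exact hno _ _ (hf.adj a b hab)
  have hPt : ¬ P t := by
    intro h
    obtain ⟨l, hv, hf⟩ := h 0
    have hadj : ∀ a b, (⊤ : SimpleGraph (Fin t)).Adj a b →
        (joinG t 0).Adj (Sum.inl a) (Sum.inl b) :=
      fun a b h => ⟨fun h' => h.ne (Sum.inl_injective h'), Or.inl rfl⟩
    exact hf ((ht _ (edgeOrdered_pullback hv Sum.inl_injective hadj)).wc.emb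
      (emb_pullback l Sum.inl_injective hadj))
  obtain ⟨d, hd, hnd⟩ : ∃ d, P d ∧ ¬ P (d + 1) := by
    by_contra hcon
    push Not at hcon
    exact hPt (Nat.rec hP0 hcon t)
  simp only [P] at hnd
  push Not at hnd
  obtain ⟨N0, hN0⟩ := hnd
  refine ⟨2 * d + N0, Fintype.card W, fun n hn => ?_⟩
  obtain ⟨l, hv, hf⟩ := hd (n - d)
  let A : Str (Fin (n - d)) := ⟨Fin d, inferInstance, joinG d (n - d), l, hv,
    fun u v h => by simpa using h.2⟩
  have hK : Kills G lG A (N0 * (n - d)) := by
    refine ⟨hf, fun V H lH φ hH hHf hφ => ?_⟩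
    have := ncard_le_of_fibers (AdjSet A H φ) N0 ?_
    · simpa using this
    intro v
    by_contra hbig
    push Not at hbig
    obtain ⟨g, hg, hg'⟩ := exists_inj_of_le_ncard _ (Set.toFinite _) N0 hbig.le
    have hgv : ∀ j, g j ≠ v := by
      intro j h
      have := hg' j
      rw [h] at this
      exact H.irrefl this
    let ψ : Fin (d + 1) ⊕ Fin N0 → Fin d ⊕ Fin (n - d) :=
      Sum.elim (Fin.lastCases (.inr v) Sum.inl) (fun j => .inr (g j))
    have hψ : Function.Injective ψ := by
      rintro (i | i) (j | j) h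
      · induction i using Fin.lastCases <;> induction j using Fin.lastCases <;> simp_all [ψ]
      · induction i using Fin.lastCases
        · simp only [ψ, Sum.elim_inl, Fin.lastCases_last, Sum.elim_inr, Sum.inr.injEq] at h
          exact absurd h.symm (hgv j)
        · simp [ψ] at h
      · induction j using Fin.lastCases
        · simp only [ψ, Sum.elim_inl, Fin.lastCases_last, Sum.elim_inr, Sum.inr.injEq] at h
          exact absurd h (hgv i)
        · simp [ψ] at h
      · simp only [ψ, Sum.elim_inr, Sum.inr.injEq] at h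
        rw [hg h]
    have key : ∀ (i : Fin (d + 1)) β, Sum.inl i ≠ β → H.Adj (φ (ψ (.inl i))) (φ (ψ β)) := by
      intro i β hne
      have hne' := hψ.ne hne
      induction i using Fin.lastCases with
      | cast i =>
        apply hφ.adj
        exact ⟨hne', Or.inl (by simp [ψ])⟩
      | last =>
        rcases β with j | j
        · induction j using Fin.lastCases with
          | cast j =>
            apply hφ.adj
            exact ⟨hne', Or.inr (by simp [ψ])⟩
          | last => exact absurd rfl hne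
        · have := hg' j
          simpa [ψ, AdjSet] using this
    have hadj : ∀ α β, (joinG (d + 1) N0).Adj α β → H.Adj ((φ ∘ ψ) α) ((φ ∘ ψ) β) := by
      rintro (α | α) (β | β) h
      · exact key _ _ h.1
      · exact key _ _ h.1
      · exact (key _ _ h.1.symm).symm
      · simpa using h.2
    have hinj : Function.Injective (φ ∘ ψ) := hφ.inj.comp hψ
    exact hHf ((hN0 _ (edgeOrdered_pullback hH hinj hadj)).emb (emb_pullback lH hinj hadj))
  obtain ⟨H, lH, h1, h2, h3⟩ := sat_of_kills hne hn A (by simp [A]) hK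
  refine ⟨H, lH, h1, h2, ?_⟩
  have h4 : H.edgeSet.ncard ≤ (2 * d + N0) * n := by
    have : N0 * (n - d) ≤ N0 * n := Nat.mul_le_mul_left _ (Nat.sub_le _ _)
    nlinarith
  exact_mod_cast h4

end Pool.Agent.MP_9b0ed7_co.H41
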