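import Mathlib
import Pool.Agent.MP_9b0ed7_co.H41.Defs

set_option autoImplicit false

namespace Pool.Agent.MP_9b0ed7_co.H41

open SimpleGraph

open Classical in
/-- `(H, lH)` is `(G, lG)`-semisaturated: adding any missing edge `uv` with any new label creates
a copy of `G` that uses the edge `uv`. -/
def SemiSaturated {V W : Type} (H : SimpleGraph V) (lH : Sym2 V → ℝ)
    (G : SimpleGraph W) (lG : Sym2 W → ℝ) : Prop :=
  ∀ u v : V, u ≠ v → ¬ H.Adj u v → ∀ x : ℝ, (∀ e ∈ H.edgeSet, lH e ≠ x) →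
    ∃ f : W → V, Function.Injective f ∧
      (∀ a b, G.Adj a b → (H ⊔ SimpleGraph.edge u v).Adj (f a) (f b)) ∧
      (∀ a b c d, G.Adj a b → G.Adj c d → lG s(a, b) < lG s(c, d) →
        Function.update lH s(u, v) x s(f a, f b) < Function.update lH s(u, v) x s(f c, f d)) ∧
      ∃ a b, G.Adj a b ∧ f a = u ∧ f b = v

variable {V W : Type}

theorem sup_edge_cases {H : SimpleGraph V} {u v a b : V} (hab : (H ⊔ edge u v).Adj a b) :
    H.Adj a b ∨ s(a, b) = s(u, v) := by
  rcases hab with h | h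
  · exact Or.inl h
  · right
    rw [edge_adj] at h
    rcases h.1 with ⟨rfl, rfl⟩ | ⟨rfl, rfl⟩
    · rfl
    · exact Sym2.eq_swap

theorem Saturated.semi {H : SimpleGraph V} {lH : Sym2 V → ℝ} {G : SimpleGraph W}
    {lG : Sym2 W → ℝ} (h : Saturated H lH G lG) : SemiSaturated H lH G lG := by
  classical
  intro u v huv hadj x hx
  obtain ⟨f, h1, h2, h3⟩ := h.2 u v huv hadj x hx
  refine ⟨f, h1, h2, h3, ?_⟩
  by_contra hcon
  push Not at hcon
  have hne : ∀ a b, G.Adj a b → s(f a, f b) ≠ s(u, v) := by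
    intro a b hab h
    rcases Sym2.eq_iff.1 h with ⟨e1, e2⟩ | ⟨e1, e2⟩
    · exact hcon a b hab e1 e2
    · exact hcon b a hab.symm e2 e1
  refine h.1 ⟨f, h1, fun a b hab => (sup_edge_cases (h2 a b hab)).resolve_right (hne a b hab), ?_⟩
  intro a b c d hab hcd hl
  have := h3 a b c d hab hcd hl
  rwa [Function.update_of_ne (hne a b hab), Function.update_of_ne (hne c d hcd)] at this

theorem opposite_pair [Finite V] {H : SimpleGraph V} {lH : Sym2 V → ℝ} {G : SimpleGraph W}
    {lG : Sym2 W → ℝ} (hG : EdgeOrdered G lG) {x y z w : W} (hxy : G.Adj x y)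
    (hmin : ∀ a b, G.Adj a b → lG s(x, y) ≤ lG s(a, b))
    (hxz : G.Adj x z) (hxw : G.Adj x w) (hyz : G.Adj y z) (hyw : G.Adj y w)
    (h1 : lG s(x, z) < lG s(x, w)) (h2 : lG s(y, w) < lG s(y, z))
    (hs : SemiSaturated H lH G lG) {u v : V} (huv : u ≠ v) (hadj : ¬ H.Adj u v) :
    ∃ p q, H.Adj u p ∧ H.Adj u q ∧ H.Adj v p ∧ H.Adj v q ∧ lH s(u, p) < lH s(u, q) ∧
      lH s(v, q) < lH s(v, p) := by
  classical
  obtain ⟨t, ht⟩ : ∃ t : ℝ, ∀ e, t < lH e := by
    obtain ⟨t, ht⟩ := (Set.finite_range lH).bddBelow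
    exact ⟨t - 1, fun e => by linarith [ht ⟨e, rfl⟩]⟩
  obtain ⟨f, hf, ha, ho, a, b, hab, hu, hv⟩ := hs u v huv hadj t (fun e _ => (ht e).ne')
  have hinj : ∀ c d, s(f c, f d) = s(u, v) → s(c, d) = s(a, b) := by
    intro c d h
    apply Sym2.map.injective hf
    simpa [hu, hv] using h
  have hab' : s(x, y) = s(a, b) := by
    by_contra hne
    have hlt : lG s(x, y) < lG s(a, b) :=
      lt_of_le_of_ne (hmin a b hab) fun h => hne (hG hxy hab h)
    have := ho x y a b hxy hab hlt
    rw [hu, hv, Function.update_self, Function.update_of_ne fun h => hne (hinj x y h)] at this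
    exact absurd this (not_lt.2 (ht _).le)
  have hn : ∀ c d, c = x ∨ c = y → d ≠ x → d ≠ y → s(f c, f d) ≠ s(u, v) := by
    intro c d _ h1 h2 h
    rw [← hab'] at hinj
    rcases Sym2.eq_iff.1 (hinj c d h) with ⟨-, e⟩ | ⟨-, e⟩
    · exact h2 e
    · exact h1 e
  have n1 := hn x z (Or.inl rfl) hxz.ne' hyz.ne'
  have n2 := hn x w (Or.inl rfl) hxw.ne' hyw.ne'
  have n3 := hn y z (Or.inr rfl) hxz.ne' hyz.ne'
  have n4 := hn y w (Or.inr rfl) hxw.ne' hyw.ne'
  have a1 := (sup_edge_cases (ha x z hxz)).resolve_right n1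
  have a2 := (sup_edge_cases (ha x w hxw)).resolve_right n2
  have a3 := (sup_edge_cases (ha y z hyz)).resolve_right n3
  have a4 := (sup_edge_cases (ha y w hyw)).resolve_right n4
  have o1 := ho x z x w hxz hxw h1
  have o2 := ho y w y z hyw hyz h2
  rw [Function.update_of_ne n1, Function.update_of_ne n2] at o1
  rw [Function.update_of_ne n4, Function.update_of_ne n3] at o2
  rcases Sym2.eq_iff.1 hab' with ⟨rfl, rfl⟩ | ⟨rfl, rfl⟩
  · rw [← hu, ← hv]; exact ⟨f z, f w, a1, a2, a3, a4, o1, o2⟩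
  · rw [← hu, ← hv]; exact ⟨f w, f z, a4, a3, a2, a1, o2, o1⟩

theorem indep_small {n D : ℕ} (hD : 0 < D) (H : SimpleGraph (Fin n)) [DecidableRel H.Adj]
    (lH : Sym2 (Fin n) → ℝ) (I : Finset (Fin n)) (hdeg : ∀ v ∈ I, H.degree v ≤ D)
    (hopp : ∀ u ∈ I, ∀ v ∈ I, u ≠ v → ∃ p q, H.Adj u p ∧ H.Adj u q ∧ H.Adj v p ∧ H.Adj v q ∧
      lH s(u, p) < lH s(u, q) ∧ lH s(v, q) < lH s(v, p)) : I.card ≤ D ^ D := by
  classical
  let rk : Fin n → Fin n → ℕ := fun v p =>
    ((H.neighborFinset v).filter fun q => lH s(v, q) < lH s(v, p)).card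
  have rk_lt : ∀ v p, H.Adj v p → rk v p < H.degree v := by
    intro v p h
    apply Finset.card_lt_card
    refine Finset.ssubset_iff_subset_ne.2 ⟨Finset.filter_subset _ _, fun h' => ?_⟩
    have : p ∈ (H.neighborFinset v).filter fun q => lH s(v, q) < lH s(v, p) := by
      rw [h']; simpa using h
    simp at this
  have rk_mono : ∀ v p q, H.Adj v p → lH s(v, p) < lH s(v, q) → rk v p < rk v q := by
    intro v p q h hl
    apply Finset.card_lt_card
    refine Finset.ssubset_iff_subset_ne.2 ⟨?_, fun h' => ?_⟩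
    · intro r hr
      simp only [Finset.mem_filter] at hr ⊢
      exact ⟨hr.1, hr.2.trans hl⟩
    · have : p ∈ (H.neighborFinset v).filter fun r => lH s(v, r) < lH s(v, p) := by
        rw [h']; simpa using ⟨h, hl⟩
      simp at this
  let A : Fin n → Finset (Fin n → Fin D) := fun v => Fintype.piFinset fun p =>
    if H.Adj v p then Finset.univ.filter fun c => c.val = rk v p else Finset.univ
  have hA : ∀ v ∈ I, D ^ n ≤ (A v).card * D ^ D := by
    intro v hv
    have e1 : (A v).card * D ^ H.degree v = D ^ n := by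
      rw [Fintype.card_piFinset]
      have : D ^ H.degree v = ∏ p : Fin n, if H.Adj v p then D else 1 := by
        rw [Finset.prod_ite, Finset.prod_const, Finset.prod_const_one, mul_one,
          ← card_neighborFinset_eq_degree, neighborFinset_eq_filter]
      rw [this, ← Finset.prod_mul_distrib]
      rw [Finset.prod_congr rfl (g := fun _ => D)]
      · simp
      · intro p _
        by_cases h : H.Adj v p
        · have : (Finset.univ.filter fun c : Fin D => c.val = rk v p) =
              {⟨rk v p, (rk_lt v p h).trans_le (hdeg v hv)⟩} := by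
            ext c; simp [Fin.ext_iff]
          simp [h, this]
        · simp [h]
    rw [← e1]
    exact Nat.mul_le_mul_left _ (Nat.pow_le_pow_right hD (hdeg v hv))
  have hdisj : (I : Set (Fin n)).PairwiseDisjoint A := by
    intro u hu v hv huv
    obtain ⟨p, q, a1, a2, a3, a4, o1, o2⟩ := hopp u hu v hv huv
    refine Finset.disjoint_left.2 fun c hc hc' => ?_
    simp only [A, Fintype.mem_piFinset] at hc hc'
    have e1 := hc p
    have e2 := hc q
    have e3 := hc' p
    have e4 := hc' q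
    simp only [a1, a2, a3, a4, if_true, Finset.mem_filter, Finset.mem_univ, true_and] at e1 e2 e3 e4
    have := rk_mono u p q a1 o1
    have := rk_mono v q p a4 o2
    omega
  have h1 : ∑ v ∈ I, (A v).card ≤ D ^ n := by
    rw [← Finset.card_biUnion hdisj]
    simpa using Finset.card_le_univ (I.biUnion A)
  have h2 : I.card * D ^ n ≤ (∑ v ∈ I, (A v).card) * D ^ D := by
    rw [Finset.sum_mul, ← smul_eq_mul, ← Finset.sum_const]
    exact Finset.sum_le_sum hA
  have h3 : I.card * D ^ n ≤ D ^ D * D ^ n := by nlinarith [Nat.zero_le (D ^ D)]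
  exact Nat.le_of_mul_le_mul_right h3 (by positivity)

theorem count_bound {n D : ℕ} (hD : 0 < D) (H : SimpleGraph (Fin n)) (lH : Sym2 (Fin n) → ℝ)
    (hopp : ∀ u v, u ≠ v → ¬ H.Adj u v → ∃ p q, H.Adj u p ∧ H.Adj u q ∧ H.Adj v p ∧ H.Adj v q ∧
      lH s(u, p) < lH s(u, q) ∧ lH s(v, q) < lH s(v, p)) :
    (D + 1) * n ≤ (D + 1) * (D + 1) ^ (D + 1) + 2 * H.edgeSet.ncard := by
  classical
  let Low : Finset (Fin n) := Finset.univ.filter fun v => H.degree v ≤ D
  obtain ⟨I, hI, hmax⟩ := Finset.exists_max_image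
    (Low.powerset.filter fun I => ∀ u ∈ I, ∀ v ∈ I, ¬ H.Adj u v) Finset.card ⟨∅, by simp⟩
  simp only [Finset.mem_filter, Finset.mem_powerset] at hI hmax
  have hdeg : ∀ v ∈ I, H.degree v ≤ D := fun v hv => (Finset.mem_filter.1 (hI.1 hv)).2
  have h1 := indep_small hD H lH I hdeg fun u hu v hv huv => hopp u v huv (hI.2 u hu v hv)
  have h2 : Low ⊆ I ∪ I.biUnion fun v => H.neighborFinset v := by
    intro v hv
    by_contra hcon
    simp only [Finset.mem_union, Finset.mem_biUnion, mem_neighborFinset, not_or, not_exists,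
      not_and] at hcon
    have := hmax (insert v I) ⟨Finset.insert_subset hv hI.1, by
      intro a ha b hb
      rcases Finset.mem_insert.1 ha with ha' | ha' <;> rcases Finset.mem_insert.1 hb with hb' | hb'
      · rw [ha', hb']; exact H.irrefl
      · rw [ha']; exact fun h => hcon.2 b hb' h.symm
      · rw [hb']; exact hcon.2 a ha'
      · exact hI.2 a ha' b hb'⟩
    rw [Finset.card_insert_of_notMem hcon.1] at this
    omega
  have h3 : Low.card ≤ I.card * (D + 1) := by
    refine (Finset.card_le_card h2).trans ((Finset.card_union_le _ _).trans ?_)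
    have := Finset.card_biUnion_le_card_mul I (fun v => H.neighborFinset v) D
      (fun v hv => by simpa using hdeg v hv)
    nlinarith
  have h4 : (D + 1) * (Finset.univ.filter fun v => ¬ H.degree v ≤ D).card ≤
      2 * H.edgeSet.ncard := by
    rw [Set.ncard_eq_toFinset_card', ← edgeFinset, ← sum_degrees_eq_twice_card_edges, mul_comm,
      ← smul_eq_mul, ← Finset.sum_const]
    refine le_trans (Finset.sum_le_sum fun v hv => ?_)
      (Finset.sum_le_sum_of_subset (Finset.filter_subset _ _))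
    have := (Finset.mem_filter.1 hv).2
    omega
  have h5 : Low.card + (Finset.univ.filter fun v => ¬ H.degree v ≤ D).card = n := by
    simpa using Finset.card_filter_add_card_filter_not (s := Finset.univ)
      (fun v : Fin n => H.degree v ≤ D)
  have h6 : D ^ D ≤ (D + 1) ^ D := Nat.pow_le_pow_left (by omega) _
  have h7 : Low.card ≤ (D + 1) ^ (D + 1) := by
    rw [pow_succ]; exact h3.trans (Nat.mul_le_mul_right _ (h1.trans h6))
  nlinarith

theorem lower_real {n m : ℕ} (hn : Real.exp 64 ≤ n)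
    (h : ∀ D : ℕ, 0 < D → (D + 1) * n ≤ (D + 1) * (D + 1) ^ (D + 1) + 2 * m) :
    1 / 16 * (n * Real.log n / Real.log (Real.log n)) ≤ m := by
  have hn0 : (0 : ℝ) < n := (Real.exp_pos _).trans_le hn
  set L := Real.log n with hL
  have hL64 : 64 ≤ L := by rwa [hL, Real.le_log_iff_exp_le hn0]
  set M := Real.log L with hM
  have hM1 : 1 ≤ M := by
    rw [hM, Real.le_log_iff_exp_le (by linarith)]
    linarith [Real.exp_one_lt_three]
  have hM2 : 4 * M < L := by
    have e1 : M = 2 * Real.log (Real.sqrt L) := by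
      rw [Real.log_sqrt (by linarith)]; ring
    have e2 : 8 ≤ Real.sqrt L := by
      rw [Real.le_sqrt (by norm_num) (by linarith)]; linarith
    have e3 := Real.log_le_sub_one_of_pos (x := Real.sqrt L) (by linarith)
    have e4 := Real.mul_self_sqrt (x := L) (by linarith)
    nlinarith
  have hq : 1 < L / (4 * M) := by rw [lt_div_iff₀ (by linarith)]; linarith
  obtain ⟨D, hD⟩ : ∃ D : ℕ, ⌈L / (4 * M)⌉₊ = D + 1 :=
    Nat.exists_eq_succ_of_ne_zero (by
      have := Nat.ceil_pos.2 (by linarith : 0 < L / (4 * M)); omega)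
  have hE1 : L / (4 * M) ≤ (D + 1 : ℝ) := by
    have := Nat.le_ceil (L / (4 * M)); rw [hD] at this; exact_mod_cast this
  have hE2 : (D + 1 : ℝ) ≤ 2 * (L / (4 * M)) := by
    have := Nat.ceil_lt_add_one (by linarith : 0 ≤ L / (4 * M))
    rw [hD] at this; push_cast at this; linarith
  have hD0 : 0 < D := by
    have : (1 : ℝ) < D + 1 := hq.trans_le hE1
    have : (0 : ℝ) < D := by linarith
    exact_mod_cast this
  have hEM : (D + 1 : ℝ) * M ≤ L / 2 := by
    have : 2 * (L / (4 * M)) * M = L / 2 := by field_simp; ring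
    nlinarith
  have hEL : (D + 1 : ℝ) ≤ L := by nlinarith
  have hpow : ((D + 1 : ℝ)) ^ (D + 1) ≤ n / 2 := by
    have e1 : Real.log ((D + 1 : ℝ) ^ (D + 1)) ≤ Real.log (n / 2) := by
      rw [Real.log_pow, Real.log_div hn0.ne' (by norm_num)]
      have e2 : Real.log (D + 1 : ℝ) ≤ M := Real.log_le_log (by positivity) hEL
      have e3 := Real.log_two_lt_d9
      push_cast
      nlinarith
    exact (Real.log_le_log_iff (by positivity) (by positivity)).1 e1
  have h1 : (D + 1 : ℝ) * n ≤ (D + 1) * (D + 1) ^ (D + 1) + 2 * m := by exact_mod_cast h D hD0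
  have h2 : (D + 1 : ℝ) * n ≤ 4 * m := by nlinarith
  have h3 : n * L / M = 4 * n * (L / (4 * M)) := by field_simp
  rw [h3]
  nlinarith

end Pool.Agent.MP_9b0ed7_co.H41
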